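import Pool.Agent.Y321.PD.Key2
import Pool.Agent.Y321.PJ.Clos
import Pool.Agent.H789R2.AN.Hyp

set_option autoImplicit false

/-!
Closing orbit segments of transitive systems at small scales, and the abstract theorem.
-/

open Filter Topology Set Metric

namespace Pool.Agent.Y321.PD

open Pool.Agent.H789R2.AN Pool.Agent.H721R2 Pool.Agent.H779R2.An

section top

variable {X : Type*} [MetricSpace X]

/-- A transitive system is a minimal attractor. -/
theorem minAtt_univ {g : X ≃ₜ X} {c : ℝ} (h : LP g c) (hne : Nonempty X)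
    (htr : ∀ U V : Set X, IsOpen U → U.Nonempty → IsOpen V → V.Nonempty →
      ∃ n : ℕ, (g^[n] '' U ∩ V).Nonempty) : MinAtt g univ := by
  refine ⟨⟨isClosed_univ, univ_nonempty, fun x => by simp, fun _ _ _ _ => mem_univ _⟩,
    fun B hB _ z₀ _ => ?_⟩
  by_contra hz
  obtain ⟨b, hb⟩ := hB.nonempty
  obtain ⟨η, hη, hball⟩ := Metric.isOpen_iff.mp hB.closed.isOpen_compl z₀ hz
  set ε := min c (η / 2) with hε
  have hε0 : 0 < ε := lt_min h.c_pos (by positivity)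
  have hε1 : ε ≤ c := min_le_left _ _
  have hε2 : ε ≤ η / 2 := min_le_right _ _
  obtain ⟨δ, hδ, hlp⟩ := h.lp ε hε0
  obtain ⟨n, _, ⟨y, hy, rfl⟩, hyV⟩ := htr (ball b δ) (ball z₀ (η / 2)) isOpen_ball
    ⟨b, mem_ball_self hδ⟩ isOpen_ball ⟨z₀, mem_ball_self (by positivity)⟩
  obtain ⟨z, h1, h2⟩ := hlp y b hy
  have hzB : z ∈ B := hB.sat b hb z (WS.of_SR (h.cU _ _ (h2.mono hε1)))
  have hgz : g^[n] z ∈ B := (inv_iter hB.inv n z).mpr hzB
  refine hball ?_ hgz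
  rw [mem_ball] at hyV ⊢
  have h3 := h1 n
  have h4 := dist_triangle (g^[n] z) (g^[n] y) z₀
  have h5 : dist (g^[n] z) (g^[n] y) = dist (g^[n] y) (g^[n] z) := dist_comm _ _
  linarith

end top

section sys

variable {X E : Type*} [MetricSpace X] [NormedAddCommGroup E] [NormedSpace ℝ E]

/-- Local product structure at all small scales. -/
theorem exists_LP_small [CompactSpace X] (S : HypSys X E) :
    ∃ c₀ > 0, ∀ c, 0 < c → c ≤ c₀ → LP S.g c := by
  obtain ⟨ε₁, hε₁, h1⟩ := contrS_iter S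
  obtain ⟨ε₂, hε₂, h2⟩ := contrS_iter S.symm
  obtain ⟨c', hLP⟩ := exists_LP S
  refine ⟨min ε₁ ε₂, lt_min hε₁ hε₂, fun c hc hcc => ⟨hc, ?_, ?_, hLP.lp⟩⟩
  · intro x y hxy n
    have h3 := h1 x y (fun k => (hxy k).trans (hcc.trans (min_le_left _ _))) n
    have h4 : dist x y ≤ c := hxy 0
    have h5 : (1 / 2 : ℝ) ^ n * dist x y ≤ (1 / 2) ^ n * c :=
      mul_le_mul_of_nonneg_left h4 (by positivity)
    linarith
  · intro x y hxy n
    have h3 := h2 x y (fun k => (hxy k).trans (hcc.trans (min_le_right _ _))) n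
    have h4 : dist x y ≤ c := hxy 0
    have h5 : (1 / 2 : ℝ) ^ n * dist x y ≤ (1 / 2) ^ n * c :=
      mul_le_mul_of_nonneg_left h4 (by positivity)
    have h6 : dist (S.g.symm^[n] x) (S.g.symm^[n] y) ≤ (1 / 2) ^ n * dist x y := h3
    linarith

/-- Closing orbit segments of a transitive system. -/
theorem closing_small [CompactSpace X] (S : HypSys X E) (hne : Nonempty X)
    (htr : ∀ U V : Set X, IsOpen U → U.Nonempty → IsOpen V → V.Nonempty →
      ∃ n : ℕ, (S.g^[n] '' U ∩ V).Nonempty) :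
    ∃ δ₁ > 0, ∀ δ, 0 < δ → δ ≤ δ₁ → ∃ N : ℕ, ∀ (x : X) (n : ℕ), ∃ m ≤ N, ∃ p, 1 ≤ n + m ∧
      S.g^[n + m] p = p ∧
      ∀ i ≤ n, dist (S.g^[i] x) (S.g^[i] p) ≤ δ * (1 / 2) ^ i + δ * (1 / 2) ^ (n - i) := by
  obtain ⟨c₀, hc₀, hLP⟩ := exists_LP_small S
  refine ⟨c₀, hc₀, fun δ hδ hδ' => ?_⟩
  obtain ⟨N, hN⟩ := Pool.Agent.Y321.PJ.closing S (hLP δ hδ hδ')
    (minAtt_univ (hLP δ hδ hδ') hne htr)
  refine ⟨N, fun x n => ?_⟩
  obtain ⟨m, hm, p, -, h1, h2, h3⟩ := hN x (mem_univ x) n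
  exact ⟨m, hm, p, h1, h2, h3⟩

end sys

section main

variable {X E : Type*} [MetricSpace X] [CompactSpace X] [NormedAddCommGroup E]
  [InnerProductSpace ℝ E] [FiniteDimensional ℝ E]

/-- A transitive system whose distortion is bounded at the periodic points is uniformly
quasiconformal. -/
theorem qc_of_per (S : HypSys X E) {Q r : ℝ} (hQ : Quad S Q r) (hne : Nonempty X)
    (htr : ∀ U V : Set X, IsOpen U → U.Nonempty → IsOpen V → V.Nonempty →
      ∃ n : ℕ, (S.g^[n] '' U ∩ V).Nonempty)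
    {K₀ : ℝ} (hper : ∀ (n : ℕ) (p : X), 1 ≤ n → S.g^[n] p = p → QA S n p K₀) :
    ∃ K, QC S K := by
  obtain ⟨δ₁, hδ₁, hclo⟩ := closing_small S hne htr
  exact qc_of_closing S hQ hδ₁ hclo hper

end main

end Pool.Agent.Y321.PD
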