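import Mathlib

set_option autoImplicit false

/-!
A submultiplicative sequence with a quadratic recursive inequality is bounded.
-/

namespace Pool.Agent.Y321.PD

open Filter Topology Finset

/-- exponential upper bounds from the limit of the logarithms -/
theorem exp_bd (k : ℕ → ℝ) (h1 : ∀ n, 1 ≤ k n) {c : ℝ} (hc : 1 ≤ c)
    (h : ∀ᶠ n : ℕ in atTop, k n ≤ c ^ n) : ∃ A : ℝ, 1 ≤ A ∧ ∀ n, k n ≤ A * c ^ n := by
  obtain ⟨N, hN⟩ := eventually_atTop.mp h
  have h0 : ∀ n, 0 ≤ k n := fun n => le_trans zero_le_one (h1 n)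
  refine ⟨∑ i ∈ range N, k i + 1, ?_, fun n => ?_⟩
  · have := Finset.sum_nonneg fun i (_ : i ∈ range N) => h0 i
    linarith
  have hcn : (1:ℝ) ≤ c ^ n := one_le_pow₀ hc
  have hs := Finset.sum_nonneg fun i (_ : i ∈ range N) => h0 i
  rcases lt_or_ge n N with hn | hn
  · have h2 : k n ≤ ∑ i ∈ range N, k i :=
      Finset.single_le_sum (fun i _ => h0 i) (Finset.mem_range.mpr hn)
    nlinarith
  · have h2 := hN n hn
    nlinarith

theorem geo_le {r : ℝ} (h0 : 0 ≤ r) (h1 : r < 1) (m : ℕ) :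
    ∑ i ∈ range m, r ^ i ≤ (1 - r)⁻¹ := by
  rw [← tsum_geometric_of_lt_one h0 h1]
  exact (summable_geometric_of_lt_one h0 h1).sum_le_tsum _ fun i _ => pow_nonneg h0 i

/-- the growth exponent is zero -/
theorem no_growth (k : ℕ → ℝ) (h1 : ∀ n, 1 ≤ k n) (hmul : ∀ m n, k (m + n) ≤ k m * k n)
    {C C₁ : ℝ} (hC : 0 ≤ C)
    (hrec : ∀ a m, k (m + 2 * a) ≤ C₁ * k a ^ 4 + C * k a ^ 2 * (1 / 2) ^ a *
      ∑ i ∈ range m, ((1 / 2) ^ i + (1 / 2) ^ (m - i)) * (k i * k (m - 1 - i))) :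
    ∀ c : ℝ, 1 < c → ∀ᶠ n : ℕ in atTop, k n ≤ c ^ n := by
  have h0 : ∀ n, 0 < k n := fun n => lt_of_lt_of_le zero_lt_one (h1 n)
  have hsub : Subadditive fun n => Real.log (k n) := by
    intro m n
    rw [← Real.log_mul (h0 m).ne' (h0 n).ne']
    exact Real.log_le_log (h0 _) (hmul m n)
  have hlog : ∀ n, 0 ≤ Real.log (k n) := fun n => Real.log_nonneg (h1 n)
  have hbdd : BddBelow (Set.range fun n : ℕ => Real.log (k n) / n) := by
    refine ⟨0, ?_⟩
    rintro _ ⟨n, rfl⟩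
    exact div_nonneg (hlog n) (Nat.cast_nonneg n)
  have hlim := hsub.tendsto_lim hbdd
  set l := hsub.lim with hl
  have hup : ∀ e > l, 0 ≤ e → ∀ᶠ n : ℕ in atTop, k n ≤ (Real.exp e) ^ n := by
    intro e he he0
    filter_upwards [(tendsto_order.mp hlim).2 e he, eventually_gt_atTop 0] with n hn hn0
    have hn' : (0:ℝ) < n := by exact_mod_cast hn0
    rw [div_lt_iff₀ hn'] at hn
    rw [← Real.exp_nat_mul, ← Real.exp_log (h0 n)]
    exact Real.exp_le_exp.mpr (by linarith)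
  have hl0 : l ≤ 0 := by
    by_contra hpos
    push Not at hpos
    set e := min l (1 / 20) with he
    have he0 : 0 < e := lt_min hpos (by norm_num)
    have he1 : e ≤ l := min_le_left _ _
    have he2 : e ≤ 1 / 20 := min_le_right _ _
    obtain ⟨A, hA1, hA⟩ := exp_bd k h1 (c := Real.exp (l + e))
      (Real.one_le_exp (by linarith)) (hup (l + e) (by linarith) (by linarith))
    have hA0 : 0 ≤ A := by linarith
    have hlow : ∀ a : ℕ, 1 ≤ a → Real.exp (9 * l) ^ a ≤ k (7 * a + 2 * a) := by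
      intro a ha
      have h2 := hsub.lim_le_div hbdd (n := 7 * a + 2 * a) (by omega)
      rw [← hl] at h2
      have h3 : (0:ℝ) < ((7 * a + 2 * a : ℕ) : ℝ) := by exact_mod_cast (by omega)
      rw [le_div_iff₀ h3] at h2
      rw [← Real.exp_nat_mul, ← Real.exp_log (h0 (7 * a + 2 * a))]
      refine Real.exp_le_exp.mpr (le_trans (le_of_eq ?_) h2)
      push_cast; ring
    set r₁ := Real.exp (4 * e - 5 * l) with hr₁
    set r₂ := Real.exp (9 * e) / 2 with hr₂
    have hr₁1 : r₁ < 1 := by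
      rw [hr₁, Real.exp_lt_one_iff]; linarith
    have hr₂1 : r₂ < 1 := by
      have h2 : Real.exp (9 * e) ≤ Real.exp (1 / 2) := Real.exp_le_exp.mpr (by linarith)
      have h3 : Real.exp (1 / 2) < 2 := by
        have h4 : Real.exp (1 / 2) * Real.exp (1 / 2) < 4 := by
          rw [← Real.exp_add]
          norm_num
          linarith [Real.exp_one_lt_d9]
        nlinarith [Real.exp_pos (1 / 2)]
      rw [hr₂]; linarith
    have hr₁0 : 0 ≤ r₁ := (Real.exp_pos _).le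
    have hr₂0 : 0 ≤ r₂ := by positivity
    have key : ∀ a : ℕ, 1 ≤ a →
        1 ≤ (|C₁| * A ^ 4) * r₁ ^ a + (14 * C * A ^ 4) * (a * r₂ ^ a) := by
      intro a ha
      set x := Real.exp (l + e) with hx
      have hx0 : 0 < x := Real.exp_pos _
      have hx1 : 1 ≤ x := Real.one_le_exp (by linarith)
      have g1 : k a ^ 4 ≤ A ^ 4 * (x ^ 4) ^ a := by
        calc k a ^ 4 ≤ (A * x ^ a) ^ 4 := pow_le_pow_left₀ (h0 a).le (hA a) 4
          _ = _ := by rw [mul_pow]; ring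
      have g2 : k a ^ 2 ≤ A ^ 2 * (x ^ 2) ^ a := by
        calc k a ^ 2 ≤ (A * x ^ a) ^ 2 := pow_le_pow_left₀ (h0 a).le (hA a) 2
          _ = _ := by rw [mul_pow]; ring
      have g3 : ∑ i ∈ range (7 * a), (((1:ℝ) / 2) ^ i + (1 / 2) ^ (7 * a - i)) *
          (k i * k (7 * a - 1 - i)) ≤ (7 * a : ℕ) * (2 * (A ^ 2 * (x ^ 7) ^ a)) := by
        rw [← nsmul_eq_mul]
        refine (Finset.sum_le_card_nsmul _ _ (2 * (A ^ 2 * (x ^ 7) ^ a)) fun i hi => ?_).trans
          (by rw [card_range])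
        rw [Finset.mem_range] at hi
        have j1 : ((1:ℝ) / 2) ^ i ≤ 1 := pow_le_one₀ (by norm_num) (by norm_num)
        have j2 : ((1:ℝ) / 2) ^ (7 * a - i) ≤ 1 := pow_le_one₀ (by norm_num) (by norm_num)
        have j3 : k i * k (7 * a - 1 - i) ≤ A ^ 2 * (x ^ 7) ^ a := by
          calc k i * k (7 * a - 1 - i) ≤ (A * x ^ i) * (A * x ^ (7 * a - 1 - i)) :=
                mul_le_mul (hA _) (hA _) (h0 _).le (by positivity)
            _ = A ^ 2 * x ^ (i + (7 * a - 1 - i)) := by rw [pow_add]; ring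
            _ ≤ A ^ 2 * x ^ (7 * a) := by
                refine mul_le_mul_of_nonneg_left ?_ (by positivity)
                exact pow_le_pow_right₀ hx1 (by omega)
            _ = _ := by rw [pow_mul]
        have j4 : 0 ≤ k i * k (7 * a - 1 - i) := mul_nonneg (h0 _).le (h0 _).le
        calc _ ≤ 2 * (k i * k (7 * a - 1 - i)) := by
              refine mul_le_mul_of_nonneg_right (by linarith) j4
          _ ≤ _ := by linarith
      have g4 := (hlow a ha).trans (hrec a (7 * a))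
      have g5 : C₁ * k a ^ 4 ≤ |C₁| * (A ^ 4 * (x ^ 4) ^ a) := by
        calc C₁ * k a ^ 4 ≤ |C₁| * k a ^ 4 :=
              mul_le_mul_of_nonneg_right (le_abs_self _) (by positivity)
          _ ≤ _ := mul_le_mul_of_nonneg_left g1 (abs_nonneg _)
      have hs0 : 0 ≤ ∑ i ∈ range (7 * a), (((1:ℝ) / 2) ^ i + (1 / 2) ^ (7 * a - i)) *
          (k i * k (7 * a - 1 - i)) :=
        Finset.sum_nonneg fun i _ => mul_nonneg (by positivity) (mul_nonneg (h0 _).le (h0 _).le)
      have g6 : C * k a ^ 2 * (1 / 2) ^ a *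
          ∑ i ∈ range (7 * a), (((1:ℝ) / 2) ^ i + (1 / 2) ^ (7 * a - i)) *
            (k i * k (7 * a - 1 - i)) ≤
          C * (A ^ 2 * (x ^ 2) ^ a) * (1 / 2) ^ a *
            ((7 * a : ℕ) * (2 * (A ^ 2 * (x ^ 7) ^ a))) := by gcongr
      have hE : 0 < Real.exp (9 * l) ^ a := by positivity
      have i1 : (x ^ 4) ^ a = r₁ ^ a * Real.exp (9 * l) ^ a := by
        rw [← mul_pow, hr₁, hx, ← Real.exp_add, ← Real.exp_nat_mul]
        congr 2; push_cast; ring
      have i2 : (x ^ 2) ^ a * (1 / 2) ^ a * (x ^ 7) ^ a = r₂ ^ a * Real.exp (9 * l) ^ a := by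
        rw [← mul_pow, ← mul_pow, ← mul_pow, hr₂, hx, ← Real.exp_nat_mul, ← Real.exp_nat_mul,
          div_mul_eq_mul_div, ← Real.exp_add]
        congr 1
        rw [mul_assoc, mul_comm (1 / 2 : ℝ), ← mul_assoc, ← Real.exp_add]
        rw [mul_one_div]
        congr 2; push_cast; ring
      have g7 : Real.exp (9 * l) ^ a * 1 ≤ Real.exp (9 * l) ^ a *
          ((|C₁| * A ^ 4) * r₁ ^ a + (14 * C * A ^ 4) * (a * r₂ ^ a)) := by
        calc Real.exp (9 * l) ^ a * 1 ≤ |C₁| * (A ^ 4 * (x ^ 4) ^ a) +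
              C * (A ^ 2 * (x ^ 2) ^ a) * (1 / 2) ^ a *
              ((7 * a : ℕ) * (2 * (A ^ 2 * (x ^ 7) ^ a))) := by linarith
          _ = |C₁| * A ^ 4 * (x ^ 4) ^ a + 14 * C * A ^ 4 * a *
              ((x ^ 2) ^ a * (1 / 2) ^ a * (x ^ 7) ^ a) := by push_cast; ring
          _ = _ := by rw [i1, i2]; ring
      exact le_of_mul_le_mul_left g7 hE
    have t1 : Tendsto (fun a : ℕ => (|C₁| * A ^ 4) * r₁ ^ a + (14 * C * A ^ 4) * (a * r₂ ^ a))
        atTop (𝓝 ((|C₁| * A ^ 4) * 0 + (14 * C * A ^ 4) * 0)) :=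
      ((tendsto_pow_atTop_nhds_zero_of_lt_one hr₁0 hr₁1).const_mul _).add
        ((tendsto_self_mul_const_pow_of_lt_one hr₂0 hr₂1).const_mul _)
    rw [mul_zero, mul_zero, add_zero] at t1
    obtain ⟨a, ha1, ha2⟩ := (((tendsto_order.mp t1).2 1 one_pos).and
      (eventually_ge_atTop 1)).exists
    exact absurd (key a ha2) (not_le.mpr ha1)
  intro c hc
  have hc0 : 0 < Real.log c := Real.log_pos hc
  have := hup (Real.log c) (lt_of_le_of_lt hl0 hc0) hc0.le
  rwa [Real.exp_log (by linarith)] at this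

/-- the numeric lemma -/
theorem num_bdd (k : ℕ → ℝ) (h1 : ∀ n, 1 ≤ k n) (hmul : ∀ m n, k (m + n) ≤ k m * k n)
    {C δ₀ : ℝ} (hC : 0 ≤ C) (hδ₀ : 0 < δ₀)
    (hrec : ∀ δ, 0 < δ → δ ≤ δ₀ → ∃ C₁, ∀ a m, k (m + 2 * a) ≤ C₁ * k a ^ 4 +
      C * δ * k a ^ 2 * (1 / 2) ^ a *
      ∑ i ∈ range m, ((1 / 2) ^ i + (1 / 2) ^ (m - i)) * (k i * k (m - 1 - i))) :
    ∃ B, ∀ n, k n ≤ B := by
  have h0 : ∀ n, 0 < k n := fun n => lt_of_lt_of_le zero_lt_one (h1 n)
  obtain ⟨C₀, hC₀⟩ := hrec δ₀ hδ₀ le_rfl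
  have hg := no_growth k h1 hmul (C := C * δ₀) (by positivity) hC₀ (3 / 2) (by norm_num)
  obtain ⟨A, hA1, hA⟩ := exp_bd k h1 (by norm_num) hg
  have hA0 : 0 ≤ A := by linarith
  have hS : ∀ m, ∑ i ∈ range m, (1 / 2 : ℝ) ^ i * k i ≤ 4 * A := by
    intro m
    calc ∑ i ∈ range m, (1 / 2 : ℝ) ^ i * k i ≤ ∑ i ∈ range m, A * (3 / 4 : ℝ) ^ i := by
          refine Finset.sum_le_sum fun i _ => ?_
          calc (1 / 2 : ℝ) ^ i * k i ≤ (1 / 2 : ℝ) ^ i * (A * (3 / 2) ^ i) :=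
                mul_le_mul_of_nonneg_left (hA i) (by positivity)
            _ = A * ((1 / 2 : ℝ) ^ i * (3 / 2) ^ i) := by ring
            _ = _ := by rw [← mul_pow]; norm_num
      _ = A * ∑ i ∈ range m, (3 / 4 : ℝ) ^ i := by rw [Finset.mul_sum]
      _ ≤ A * (1 - 3 / 4)⁻¹ :=
          mul_le_mul_of_nonneg_left (geo_le (by norm_num) (by norm_num) m) hA0
      _ = _ := by norm_num; ring
  set q := 12 * C * A * k 0 ^ 2 + 1 with hq
  have hq1 : 1 ≤ q := by
    have : 0 ≤ 12 * C * A * k 0 ^ 2 := by positivity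
    linarith
  have hq0 : 0 < q := by linarith
  set δ := min δ₀ (1 / q) with hδ
  have hδ0 : 0 < δ := lt_min hδ₀ (by positivity)
  have hδq : δ * q ≤ 1 := by
    have : δ ≤ 1 / q := min_le_right _ _
    rwa [le_div_iff₀ hq0] at this
  obtain ⟨C₁, hC₁⟩ := hrec δ hδ0 (min_le_left _ _)
  set D := |C₁| * k 0 ^ 4 with hD
  have hD0 : 0 ≤ D := by positivity
  refine ⟨2 * D, fun n => ?_⟩
  induction n using Nat.strong_induction_on with
  | _ m ih =>
    have e1 := hC₁ 0 m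
    rw [mul_zero, add_zero, pow_zero, mul_one] at e1
    have s1 : ∑ i ∈ range m, (1 / 2 : ℝ) ^ i * (k i * k (m - 1 - i)) ≤ 2 * D * (4 * A) := by
      calc ∑ i ∈ range m, (1 / 2 : ℝ) ^ i * (k i * k (m - 1 - i))
          ≤ ∑ i ∈ range m, 2 * D * ((1 / 2 : ℝ) ^ i * k i) := by
            refine Finset.sum_le_sum fun i hi => ?_
            rw [Finset.mem_range] at hi
            have := ih (m - 1 - i) (by omega)
            calc (1 / 2 : ℝ) ^ i * (k i * k (m - 1 - i)) = k (m - 1 - i) *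
                  ((1 / 2 : ℝ) ^ i * k i) := by ring
              _ ≤ _ := mul_le_mul_of_nonneg_right this
                  (mul_nonneg (by positivity) (h0 i).le)
        _ = 2 * D * ∑ i ∈ range m, (1 / 2 : ℝ) ^ i * k i := by rw [Finset.mul_sum]
        _ ≤ _ := mul_le_mul_of_nonneg_left (hS m) (by positivity)
    have s2 : ∑ i ∈ range m, (1 / 2 : ℝ) ^ (m - i) * (k i * k (m - 1 - i)) ≤
        2 * D * (2 * A) := by
      rw [← Finset.sum_range_reflect]
      calc ∑ j ∈ range m, (1 / 2 : ℝ) ^ (m - (m - 1 - j)) *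
            (k (m - 1 - j) * k (m - 1 - (m - 1 - j)))
          ≤ ∑ i ∈ range m, D * ((1 / 2 : ℝ) ^ i * k i) := by
            refine Finset.sum_le_sum fun i hi => ?_
            rw [Finset.mem_range] at hi
            have e2 : m - (m - 1 - i) = i + 1 := by omega
            have e3 : m - 1 - (m - 1 - i) = i := by omega
            rw [e2, e3, pow_succ]
            have := ih (m - 1 - i) (by omega)
            calc (1 / 2 : ℝ) ^ i * (1 / 2) * (k (m - 1 - i) * k i) = (k (m - 1 - i) / 2) *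
                  ((1 / 2 : ℝ) ^ i * k i) := by ring
              _ ≤ _ := mul_le_mul_of_nonneg_right (by linarith)
                  (mul_nonneg (by positivity) (h0 i).le)
        _ = D * ∑ i ∈ range m, (1 / 2 : ℝ) ^ i * k i := by rw [Finset.mul_sum]
        _ ≤ D * (4 * A) := mul_le_mul_of_nonneg_left (hS m) (by positivity)
        _ = _ := by ring
    have s3 : ∑ i ∈ range m, ((1 / 2 : ℝ) ^ i + (1 / 2) ^ (m - i)) * (k i * k (m - 1 - i)) ≤
        12 * A * D := by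
      simp only [add_mul]
      rw [Finset.sum_add_distrib]
      linarith
    have s4 : C₁ * k 0 ^ 4 ≤ D := mul_le_mul_of_nonneg_right (le_abs_self _) (by positivity)
    have s5 : C * δ * k 0 ^ 2 * ∑ i ∈ range m, ((1 / 2 : ℝ) ^ i + (1 / 2) ^ (m - i)) *
        (k i * k (m - 1 - i)) ≤ D := by
      calc _ ≤ C * δ * k 0 ^ 2 * (12 * A * D) :=
            mul_le_mul_of_nonneg_left s3 (by positivity)
        _ = (δ * (12 * C * A * k 0 ^ 2)) * D := by ring
        _ ≤ 1 * D := by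
            refine mul_le_mul_of_nonneg_right ?_ hD0
            nlinarith
        _ = D := one_mul D
    linarith

end Pool.Agent.Y321.PD
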