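import Pool.Agent.H779R2.An.TauAux
import Pool.Agent.Y321.PD.Num

set_option autoImplicit false

/-!
Comparison of the distortions of the derivatives along two shadowing orbits.
-/

namespace Pool.Agent.Y321.PD

open Pool.Agent.H721R2 Pool.Agent.H779R2.An Pool.Agent.H779R2.An.TauAux Filter Topology Finset

variable {X E : Type*} [MetricSpace X] [CompactSpace X] [NormedAddCommGroup E]
  [InnerProductSpace ℝ E] [FiniteDimensional ℝ E]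

/-- The distortion of `Dⁿ` on the unstable space at `x` is at most `k`. -/
def QA (S : HypSys X E) (n : ℕ) (x : X) (k : ℝ) : Prop :=
  ∀ v ∈ S.Vu x, ∀ w ∈ S.Vu x, ‖Dn S n x v‖ * ‖w‖ ≤ k * (‖Dn S n x w‖ * ‖v‖)

variable {S : HypSys X E}

theorem QA.mono {n : ℕ} {x : X} {k k' : ℝ} (h : QA S n x k) (hk : k ≤ k') : QA S n x k' :=
  fun v hv w hw => (h v hv w hw).trans (mul_le_mul_of_nonneg_right hk (by positivity))

theorem Dn_pos (n : ℕ) {x : X} {v : E} (hv : v ∈ S.Vu x) (h0 : v ≠ 0) : 0 < ‖Dn S n x v‖ :=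
  norm_pos_iff.mpr fun h => h0 (Dn_eq_zero S n x hv h)

/-- It is enough to test nonzero vectors. -/
theorem QA.of_ne {n : ℕ} {x : X} {k : ℝ} (h : ∀ v ∈ S.Vu x, ∀ w ∈ S.Vu x, v ≠ 0 → w ≠ 0 →
    ‖Dn S n x v‖ * ‖w‖ ≤ k * (‖Dn S n x w‖ * ‖v‖)) : QA S n x k := by
  intro v hv w hw
  by_cases h1 : v = 0
  · rw [h1, map_zero]; simp
  by_cases h2 : w = 0
  · rw [h2, map_zero]; simp
  exact h v hv w hw h1 h2

theorem QA.comp {m n : ℕ} {x : X} {k k' : ℝ} (h : QA S n x k) (h' : QA S m (S.g^[n] x) k')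
    (hk : 0 ≤ k) : QA S (m + n) x (k * k') := by
  refine QA.of_ne fun v hv w hw hv0 hw0 => ?_
  rw [Dn_add, Dn_add]
  have hv1 := Dn_mem S n x hv
  have hw1 := Dn_mem S n x hw
  have p1 := Dn_pos n hv hv0
  have p2 := Dn_pos n hw hw0
  set v1 := Dn S n x v with hv1d
  set w1 := Dn S n x w with hw1d
  have e1 := h v hv w hw
  rw [← hv1d, ← hw1d] at e1
  have e2 := h' v1 hv1 w1 hw1
  set a := ‖Dn S m (S.g^[n] x) v1‖
  set b := ‖Dn S m (S.g^[n] x) w1‖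
  have ha : 0 ≤ a := norm_nonneg _
  have hb : 0 ≤ b := norm_nonneg _
  have hvn : 0 < ‖v‖ := norm_pos_iff.mpr hv0
  have hwn : 0 < ‖w‖ := norm_pos_iff.mpr hw0
  have e3 : (a * ‖w1‖) * (‖v1‖ * ‖w‖) ≤ (k' * (b * ‖v1‖)) * (k * (‖w1‖ * ‖v‖)) :=
    mul_le_mul e2 e1 (by positivity) (le_trans (by positivity) e2)
  have e4 : (‖v1‖ * ‖w1‖) * (a * ‖w‖) ≤ (‖v1‖ * ‖w1‖) * (k * k' * (b * ‖v‖)) := by
    calc _ = (a * ‖w1‖) * (‖v1‖ * ‖w‖) := by ring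
      _ ≤ _ := e3
      _ = _ := by ring
  exact le_of_mul_le_mul_left e4 (by positivity)

/-- The distortion of a middle part. -/
theorem QA.mid {a m b : ℕ} {x : X} {ka kb K : ℝ} (h : QA S (b + (m + a)) x K) (ha : QA S a x ka)
    (hb : QA S b (S.g^[m + a] x) kb) : QA S m (S.g^[a] x) (ka * K * kb) := by
  refine QA.of_ne fun v hv w hw hv0 hw0 => ?_
  set v0 := Dn S.symm a (S.g^[a] x) v with hv0d
  set w0 := Dn S.symm a (S.g^[a] x) w with hw0d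
  have mv0 : v0 ∈ S.Vu x := by
    have := Dn_symm_mem S a (S.g^[a] x) hv
    rwa [iter_symm_iter] at this
  have mw0 : w0 ∈ S.Vu x := by
    have := Dn_symm_mem S a (S.g^[a] x) hw
    rwa [iter_symm_iter] at this
  have ev : Dn S a x v0 = v := by
    have := Dn_Dn_symm S a (S.g^[a] x) hv
    rwa [iter_symm_iter] at this
  have ew : Dn S a x w0 = w := by
    have := Dn_Dn_symm S a (S.g^[a] x) hw
    rwa [iter_symm_iter] at this
  have nv0 : v0 ≠ 0 := by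
    intro h0; rw [h0, map_zero] at ev; exact hv0 ev.symm
  have nw0 : w0 ≠ 0 := by
    intro h0; rw [h0, map_zero] at ew; exact hw0 ew.symm
  have tv : Dn S (b + (m + a)) x v0 = Dn S b (S.g^[m + a] x) (Dn S m (S.g^[a] x) v) := by
    rw [Dn_add, Dn_add, ev]
  have tw : Dn S (b + (m + a)) x w0 = Dn S b (S.g^[m + a] x) (Dn S m (S.g^[a] x) w) := by
    rw [Dn_add, Dn_add, ew]
  have mv1 : Dn S m (S.g^[a] x) v ∈ S.Vu (S.g^[m + a] x) := by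
    have := Dn_mem S m (S.g^[a] x) hv
    rwa [← Function.iterate_add_apply] at this
  have mw1 : Dn S m (S.g^[a] x) w ∈ S.Vu (S.g^[m + a] x) := by
    have := Dn_mem S m (S.g^[a] x) hw
    rwa [← Function.iterate_add_apply] at this
  have e1 := hb _ mw1 _ mv1
  rw [← tv, ← tw] at e1
  have e2 := h v0 mv0 w0 mw0
  have e3 := ha w0 mw0 v0 mv0
  rw [ev, ew] at e3
  have p1 := Dn_pos (b + (m + a)) mv0 nv0
  have p2 := Dn_pos (b + (m + a)) mw0 nw0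
  have p3 : 0 < ‖v0‖ := norm_pos_iff.mpr nv0
  have p4 : 0 < ‖w0‖ := norm_pos_iff.mpr nw0
  set Tv := ‖Dn S (b + (m + a)) x v0‖
  set Tw := ‖Dn S (b + (m + a)) x w0‖
  set mv := ‖Dn S m (S.g^[a] x) v‖
  set mw := ‖Dn S m (S.g^[a] x) w‖
  have f1 : (Tw * mv) * (Tv * ‖w0‖) ≤ (kb * (Tv * mw)) * (K * (Tw * ‖v0‖)) :=
    mul_le_mul e1 e2 (by positivity) (le_trans (by positivity) e1)
  have f2 : ((Tw * mv) * (Tv * ‖w0‖)) * (‖w‖ * ‖v0‖) ≤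
      ((kb * (Tv * mw)) * (K * (Tw * ‖v0‖))) * (ka * (‖v‖ * ‖w0‖)) :=
    mul_le_mul f1 e3 (by positivity) (le_trans (by positivity) f1)
  have f3 : (Tw * Tv * ‖w0‖ * ‖v0‖) * (mv * ‖w‖) ≤
      (Tw * Tv * ‖w0‖ * ‖v0‖) * (ka * K * kb * (mw * ‖v‖)) := by
    calc _ = ((Tw * mv) * (Tv * ‖w0‖)) * (‖w‖ * ‖v0‖) := by ring
      _ ≤ _ := f2
      _ = _ := by ring
  exact le_of_mul_le_mul_left f3 (by positivity)

/-- The trivial bound. -/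
theorem QA.triv (S : HypSys X E) (n : ℕ) (x : X) : QA S n x (S.Lu ^ n) := by
  intro v hv w hw
  have h1 := Dn_le S n x hv
  have h2 := le_Dn S n x hw
  have h3 : ‖w‖ ≤ ‖Dn S n x w‖ := by
    have : (1:ℝ) * ‖w‖ ≤ 16 ^ n * ‖w‖ :=
      mul_le_mul_of_nonneg_right (one_le_pow₀ (by norm_num)) (norm_nonneg _)
    linarith
  have h4 : 0 ≤ S.Lu := by linarith [S.one_le_Lu]
  calc ‖Dn S n x v‖ * ‖w‖ ≤ (S.Lu ^ n * ‖v‖) * ‖Dn S n x w‖ :=
        mul_le_mul h1 h3 (norm_nonneg _) (by positivity)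
    _ = _ := by ring

/-- Almost optimal vectors. -/
theorem exists_opt (n : ℕ) (x : X) (hx : ∃ v ∈ S.Vu x, v ≠ 0) :
    ∃ k : ℝ, 1 ≤ k ∧ QA S n x k ∧ ∃ v ∈ S.Vu x, ∃ w ∈ S.Vu x, v ≠ 0 ∧ w ≠ 0 ∧
      7 / 8 * k * (‖Dn S n x w‖ * ‖v‖) ≤ ‖Dn S n x v‖ * ‖w‖ := by
  set R : Set ℝ := {r | ∃ v ∈ S.Vu x, ∃ w ∈ S.Vu x, v ≠ 0 ∧ w ≠ 0 ∧
    r = ‖Dn S n x v‖ * ‖w‖ / (‖Dn S n x w‖ * ‖v‖)} with hR
  obtain ⟨u, hu, hu0⟩ := hx
  have h1 : (1:ℝ) ∈ R := by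
    refine ⟨u, hu, u, hu, hu0, hu0, ?_⟩
    have := Dn_pos n hu hu0
    have := norm_pos_iff.mpr hu0
    rw [div_self (by positivity)]
  have hbd : BddAbove R := by
    refine ⟨S.Lu ^ n, ?_⟩
    rintro r ⟨v, hv, w, hw, hv0, hw0, rfl⟩
    have := Dn_pos n hw hw0
    have := norm_pos_iff.mpr hv0
    rw [div_le_iff₀ (by positivity)]
    exact QA.triv S n x v hv w hw
  have hk1 : 1 ≤ sSup R := le_csSup hbd h1
  refine ⟨sSup R, hk1, QA.of_ne fun v hv w hw hv0 hw0 => ?_, ?_⟩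
  · have := Dn_pos n hw hw0
    have := norm_pos_iff.mpr hv0
    rw [← div_le_iff₀ (by positivity)]
    exact le_csSup hbd ⟨v, hv, w, hw, hv0, hw0, rfl⟩
  · obtain ⟨r, ⟨v, hv, w, hw, hv0, hw0, rfl⟩, hr⟩ :=
      exists_lt_of_lt_csSup ⟨1, h1⟩ (show 7 / 8 * sSup R < sSup R by linarith)
    refine ⟨v, hv, w, hw, hv0, hw0, ?_⟩
    have := Dn_pos n hw hw0
    have := norm_pos_iff.mpr hv0
    rw [lt_div_iff₀ (by positivity)] at hr
    exact hr.le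

theorem norm_le_two {Pu : X → E →ₗ[ℝ] E} {x y : X} {v : E}
    (h : ‖Pu y v - v‖ ≤ 1 / 8 * ‖v‖) : ‖Pu y v‖ ≤ 2 * ‖v‖ ∧ 7 / 8 * ‖v‖ ≤ ‖Pu y v‖ := by
  have h1 := norm_add_le (Pu y v - v) v
  rw [sub_add_cancel] at h1
  have h2 := norm_sub_le (Pu y v) (Pu y v - v)
  rw [sub_sub_cancel] at h2
  have := norm_nonneg v
  constructor <;> linarith

set_option maxHeartbeats 1000000 in
/-- One step of the telescoping sum. -/
theorem tele_step {Pu : X → E →ₗ[ℝ] E} (h : PD S Pu) {C₁ ρ : ℝ} (hC₁ : 0 ≤ C₁)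
    (hnear : ∀ x y, dist x y < ρ → ∀ v ∈ S.Vu x, ‖Pu y v - v‖ ≤ 1 / 8 * ‖v‖)
    (hstep : ∀ x y, dist x y < ρ → ∀ v ∈ S.Vu x,
      ‖S.D y (Pu y v) - Pu (S.g y) (S.D x v)‖ ≤ C₁ * dist x y * ‖v‖)
    {i j : ℕ} {x a b : X} (ha : S.g^[i] x = a) (hab : dist a b < ρ)
    (hab' : dist (S.g a) (S.g b) < ρ) {ki kj : ℝ} (hki : 0 ≤ ki) (hkj : 0 ≤ kj)
    (hi : QA S i x ki) (hj : QA S j (S.g b) kj) {v z : E} (hv : v ∈ S.Vu x) (hv0 : v ≠ 0)
    (hz : z ∈ S.Vu (S.g b)) (hz0 : z ≠ 0) :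
    ‖Dn S j (S.g b) (Pu (S.g b) (Dn S (i + 1) x v))‖ *
      ‖Dn S.symm (i + 1) (S.g a) (Pu (S.g a) z)‖ ≤
    ‖Dn S (j + 1) b (Pu b (Dn S i x v))‖ * ‖Dn S.symm i a (Pu a (S.D' (S.g b) z))‖ +
      C₁ * (1 + 2 * S.Lu) * dist a b * (ki * kj) * (‖v‖ * ‖Dn S j (S.g b) z‖) := by
  have hLu := S.one_le_Lu
  set u := Dn S i x v with hu
  have hum : u ∈ S.Vu a := by
    have := Dn_mem S i x hv
    rwa [ha] at this
  have hu0 : 0 < ‖u‖ := Dn_pos i hv hv0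
  set v' := S.D' (S.g b) z with hv'
  have hv'm : v' ∈ S.Vu b := by
    have := S.mapU' (S.g b) z hz
    rwa [Homeomorph.symm_apply_apply] at this
  have hDv' : S.D b v' = z := by
    have := S.invU' (S.g b) z hz
    rwa [Homeomorph.symm_apply_apply] at this
  have hz1 : 0 < ‖z‖ := norm_pos_iff.mpr hz0
  have hv'z : ‖v'‖ ≤ 1 / 16 * ‖z‖ :=
    (S.contrU (S.g b) z hz).trans (mul_le_mul_of_nonneg_right S.b_le (norm_nonneg _))
  set d := dist a b with hd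
  have hd0 : 0 ≤ d := dist_nonneg
  -- vectors
  set e := S.D b (Pu b u) - Pu (S.g b) (S.D a u) with he
  have hem : e ∈ S.Vu (S.g b) := Submodule.sub_mem _ (S.mapU b _ (h.mem b u)) (h.mem _ _)
  have hen : ‖e‖ ≤ C₁ * d * ‖u‖ := hstep a b hab u hum
  set c := Pu a v' with hc
  have hcm : c ∈ S.Vu a := h.mem a v'
  have hcn : ‖c‖ ≤ ‖z‖ := by
    have := (norm_le_two (x := a) (hnear b a (by rw [dist_comm]; exact hab) v' hv'm)).1
    linarith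
  set e' := c - S.D' (S.g a) (Pu (S.g a) z) with he'
  have he'eq : e' = S.D' (S.g a) (S.D a c - Pu (S.g a) z) := by
    rw [map_sub, S.invU a c hcm]
  have hm' : S.D a c - Pu (S.g a) z ∈ S.Vu (S.g a) :=
    Submodule.sub_mem _ (S.mapU a _ hcm) (h.mem _ _)
  have he'm : e' ∈ S.Vu a := by
    rw [he'eq]
    have := S.mapU' (S.g a) _ hm'
    rwa [Homeomorph.symm_apply_apply] at this
  have he'n : ‖e'‖ ≤ C₁ * d * ‖z‖ := by
    have h1 := hstep b a (by rw [dist_comm]; exact hab) v' hv'm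
    rw [hDv', dist_comm, ← hd] at h1
    have h2 : ‖e'‖ ≤ 1 / 16 * ‖S.D a c - Pu (S.g a) z‖ := by
      rw [he'eq]
      exact (S.contrU (S.g a) _ hm').trans (mul_le_mul_of_nonneg_right S.b_le (norm_nonneg _))
    have h3 : C₁ * d * ‖v'‖ ≤ C₁ * d * ‖z‖ :=
      mul_le_mul_of_nonneg_left (by linarith) (by positivity)
    have h4 : 0 ≤ ‖S.D a c - Pu (S.g a) z‖ := norm_nonneg _
    linarith
  set c' := Pu (S.g b) (S.D a u) with hc'
  have hc'm : c' ∈ S.Vu (S.g b) := h.mem _ _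
  have hc'n : ‖c'‖ ≤ 2 * S.Lu * ‖u‖ := by
    have h1 := (norm_le_two (x := a) (hnear (S.g a) (S.g b) hab' _ (S.mapU a u hum))).1
    have h2 := S.boundU a u hum
    linarith
  -- rewriting
  have r1 : Dn S (i + 1) x v = S.D a u := by
    rw [Dn_succ, ha]
  have r2 : Dn S (j + 1) b (Pu b u) = Dn S j (S.g b) (S.D b (Pu b u)) := Dn_succ' S j b _
  have r3 : Dn S.symm (i + 1) (S.g a) (Pu (S.g a) z) =
      Dn S.symm i a (S.D' (S.g a) (Pu (S.g a) z)) := by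
    rw [Dn_succ']
    change Dn S.symm i (S.g.symm (S.g a)) (S.D' (S.g a) (Pu (S.g a) z)) = _
    rw [Homeomorph.symm_apply_apply]
  rw [r1, r2, r3, ← hc']
  set w := Dn S j (S.g b) z with hw
  have hw0 : 0 < ‖w‖ := Dn_pos j hz hz0
  have hvn : 0 < ‖v‖ := norm_pos_iff.mpr hv0
  -- the two distortion facts
  have T : ∀ y ∈ S.Vu (S.g b), ‖Dn S j (S.g b) y‖ * ‖z‖ ≤ kj * (‖w‖ * ‖y‖) :=
    fun y hy => hj y hy z hz
  have U : ∀ y ∈ S.Vu a, ‖Dn S.symm i a y‖ * ‖u‖ ≤ ki * (‖y‖ * ‖v‖) := by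
    intro y hy
    have hy' : y ∈ S.Vu (S.g^[i] x) := by rwa [ha]
    have m0 : Dn S.symm i a y ∈ S.Vu x := by
      have := Dn_symm_mem S i (S.g^[i] x) hy'
      rwa [iter_symm_iter, ha] at this
    have m1 : Dn S i x (Dn S.symm i a y) = y := by
      have := Dn_Dn_symm S i (S.g^[i] x) hy'
      rwa [iter_symm_iter, ha] at this
    have := hi v hv _ m0
    rw [m1, ← hu] at this
    rw [mul_comm]
    exact this
  have da : Dn S j (S.g b) (S.D b (Pu b u)) = Dn S j (S.g b) c' + Dn S j (S.g b) e := by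
    rw [← map_add, he]; congr 1; abel
  have db : Dn S.symm i a c = Dn S.symm i a (S.D' (S.g a) (Pu (S.g a) z)) + Dn S.symm i a e' := by
    rw [← map_add, he']; congr 1; abel
  set A1 := ‖Dn S j (S.g b) c'‖
  set A0 := ‖Dn S j (S.g b) (S.D b (Pu b u))‖ with hA0
  set B1 := ‖Dn S.symm i a (S.D' (S.g a) (Pu (S.g a) z))‖
  set B0 := ‖Dn S.symm i a c‖ with hB0
  have k1 : A1 ≤ A0 + ‖Dn S j (S.g b) e‖ := by
    have := norm_sub_le (Dn S j (S.g b) (S.D b (Pu b u))) (Dn S j (S.g b) e)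
    rw [da, add_sub_cancel_right, ← da] at this
    exact this
  have k2 : B1 ≤ B0 + ‖Dn S.symm i a e'‖ := by
    have := norm_sub_le (Dn S.symm i a c) (Dn S.symm i a e')
    rw [db, add_sub_cancel_right, ← db] at this
    exact this
  have l1 : ‖Dn S j (S.g b) e‖ * B0 ≤ C₁ * d * (ki * kj) * (‖v‖ * ‖w‖) := by
    have t1 := T e hem
    have t2 := U c hcm
    have t3 : (‖Dn S j (S.g b) e‖ * ‖z‖) * (B0 * ‖u‖) ≤ (kj * (‖w‖ * ‖e‖)) * (ki * (‖c‖ * ‖v‖)) :=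
      mul_le_mul t1 t2 (by positivity) (by positivity)
    have t4 : (kj * (‖w‖ * ‖e‖)) * (ki * (‖c‖ * ‖v‖)) ≤
        (kj * (‖w‖ * (C₁ * d * ‖u‖))) * (ki * (‖z‖ * ‖v‖)) := by gcongr
    have t5 : (‖z‖ * ‖u‖) * (‖Dn S j (S.g b) e‖ * B0) ≤
        (‖z‖ * ‖u‖) * (C₁ * d * (ki * kj) * (‖v‖ * ‖w‖)) := by
      calc _ = (‖Dn S j (S.g b) e‖ * ‖z‖) * (B0 * ‖u‖) := by ring
        _ ≤ _ := t3.trans t4
        _ = _ := by ring
    exact le_of_mul_le_mul_left t5 (by positivity)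
  have l2 : A1 * ‖Dn S.symm i a e'‖ ≤ C₁ * (2 * S.Lu) * d * (ki * kj) * (‖v‖ * ‖w‖) := by
    have t1 := T c' hc'm
    have t2 := U e' he'm
    have t3 : (A1 * ‖z‖) * (‖Dn S.symm i a e'‖ * ‖u‖) ≤
        (kj * (‖w‖ * ‖c'‖)) * (ki * (‖e'‖ * ‖v‖)) :=
      mul_le_mul t1 t2 (by positivity) (by positivity)
    have t4 : (kj * (‖w‖ * ‖c'‖)) * (ki * (‖e'‖ * ‖v‖)) ≤
        (kj * (‖w‖ * (2 * S.Lu * ‖u‖))) * (ki * ((C₁ * d * ‖z‖) * ‖v‖)) := by gcongr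
    have t5 : (‖z‖ * ‖u‖) * (A1 * ‖Dn S.symm i a e'‖) ≤
        (‖z‖ * ‖u‖) * (C₁ * (2 * S.Lu) * d * (ki * kj) * (‖v‖ * ‖w‖)) := by
      calc _ = (A1 * ‖z‖) * (‖Dn S.symm i a e'‖ * ‖u‖) := by ring
        _ ≤ _ := t3.trans t4
        _ = _ := by ring
    exact le_of_mul_le_mul_left t5 (by positivity)
  have hA1 : 0 ≤ A1 := norm_nonneg _
  have hB0' : 0 ≤ B0 := norm_nonneg _
  calc A1 * B1 ≤ A1 * (B0 + ‖Dn S.symm i a e'‖) := mul_le_mul_of_nonneg_left k2 hA1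
    _ = A1 * B0 + A1 * ‖Dn S.symm i a e'‖ := by ring
    _ ≤ (A0 + ‖Dn S j (S.g b) e‖) * B0 + A1 * ‖Dn S.symm i a e'‖ := by
        have := mul_le_mul_of_nonneg_right k1 hB0'
        linarith
    _ = A0 * B0 + ‖Dn S j (S.g b) e‖ * B0 + A1 * ‖Dn S.symm i a e'‖ := by ring
    _ ≤ A0 * B0 + C₁ * d * (ki * kj) * (‖v‖ * ‖w‖) +
        C₁ * (2 * S.Lu) * d * (ki * kj) * (‖v‖ * ‖w‖) := by linarith
    _ = _ := by ring

end Pool.Agent.Y321.PD
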