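import Pool.Agent.Y321.PD.Key

set_option autoImplicit false

/-!
The key inequality, and bounded distortion from bounded distortion at the periodic points.
-/

namespace Pool.Agent.Y321.PD

open Pool.Agent.H721R2 Pool.Agent.H779R2.An Pool.Agent.H779R2.An.TauAux Filter Topology Finset

variable {X E : Type*} [MetricSpace X] [CompactSpace X] [NormedAddCommGroup E]
  [InnerProductSpace ℝ E] [FiniteDimensional ℝ E] {S : HypSys X E}

set_option maxHeartbeats 1000000 in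
/-- The key inequality. -/
theorem key_aux {Pu : X → E →ₗ[ℝ] E} (h : PD S Pu) {C₁ ρ : ℝ} (hC₁ : 0 ≤ C₁)
    (hnear : ∀ x y, dist x y < ρ → ∀ v ∈ S.Vu x, ‖Pu y v - v‖ ≤ 1 / (8 * S.K) * ‖v‖)
    (hstep : ∀ x y, dist x y < ρ → ∀ v ∈ S.Vu x,
      ‖S.D y (Pu y v) - Pu (S.g y) (S.D x v)‖ ≤ C₁ * dist x y * ‖v‖)
    (n : ℕ) (x y : X) (κ : ℕ → ℝ) (ky : ℝ) (hd : ∀ i ≤ n, dist (S.g^[i] x) (S.g^[i] y) < ρ)
    (hκ0 : ∀ i, 0 ≤ κ i) (hκ : ∀ i z, QA S i z (κ i)) (hky0 : 0 ≤ ky) (hky : QA S n y ky) :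
    QA S n x (16 * ky + 4 * (C₁ * (1 + 2 * S.Lu)) *
      ∑ i ∈ range n, dist (S.g^[i] x) (S.g^[i] y) * (κ i * κ (n - 1 - i))) := by
  have hK1 := S.one_le_K
  have hLu := S.one_le_Lu
  by_cases hx : ∃ v ∈ S.Vu x, v ≠ 0
  swap
  · push Not at hx
    refine QA.of_ne fun v hv w hw hv0 => absurd (hx v hv) hv0
  have hnear' : ∀ x y, dist x y < ρ → ∀ v ∈ S.Vu x, ‖Pu y v - v‖ ≤ 1 / 8 * ‖v‖ := by
    intro x y hxy v hv
    refine (hnear x y hxy v hv).trans (mul_le_mul_of_nonneg_right ?_ (norm_nonneg _))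
    exact one_div_le_one_div_of_le (by norm_num) (by linarith)
  obtain ⟨k, hk1, hk, v, hv, w₀, hw₀, hv0, hw₀0, hopt⟩ := exists_opt (S := S) n x hx
  refine hk.mono ?_
  set xn := S.g^[n] x with hxn
  set yn := S.g^[n] y with hyn
  set Av := Dn S n x v with hAv
  set w' := Dn S n x w₀ with hw'
  have hAvm : Av ∈ S.Vu xn := Dn_mem S n x hv
  have hw'm : w' ∈ S.Vu xn := Dn_mem S n x hw₀
  have hvn : 0 < ‖v‖ := norm_pos_iff.mpr hv0
  have hw'n : 0 < ‖w'‖ := Dn_pos n hw₀ hw₀0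
  have hdn := hd n le_rfl
  have hd0 := hd 0 (Nat.zero_le n)
  simp only [Function.iterate_zero, id_eq] at hd0
  set w := Pu yn w' with hw
  have hwm : w ∈ S.Vu yn := h.mem yn w'
  obtain ⟨hw2, hw7⟩ := norm_le_two (x := xn) (hnear' xn yn hdn w' hw'm)
  rw [← hw] at hw2 hw7
  have hwn : 0 < ‖w‖ := by linarith
  have hw0 : w ≠ 0 := norm_pos_iff.mp hwn
  -- the products
  let z : ℕ → E := fun i => Dn S.symm (n - i) yn w
  let q : ℕ → ℝ := fun i => ‖Dn S (n - i) (S.g^[i] y) (Pu (S.g^[i] y) (Dn S i x v))‖ *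
    ‖Dn S.symm i (S.g^[i] x) (Pu (S.g^[i] x) (z i))‖
  let t : ℕ → ℝ := fun i => C₁ * (1 + 2 * S.Lu) * dist (S.g^[i] x) (S.g^[i] y) *
    (κ i * κ (n - 1 - i)) * (‖v‖ * ‖w‖)
  have hq : ∀ i, i < n → q (i + 1) ≤ q i + t i := by
    intro i hi
    obtain ⟨j, rfl⟩ : ∃ j, n = i + 1 + j := ⟨n - (i + 1), by omega⟩
    have e1 : i + 1 + j - (i + 1) = j := by omega
    have e2 : i + 1 + j - i = j + 1 := by omega
    have e3 : i + 1 + j - 1 - i = j := by omega
    have e4 : S.g.symm^[j] yn = S.g (S.g^[i] y) := by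
      rw [hyn, ← Function.iterate_succ_apply' S.g i y]
      have : S.g^[i + 1 + j] y = S.g^[j] (S.g^[i.succ] y) := by
        rw [← Function.iterate_add_apply]; congr 1; omega
      rw [this, iter_symm_iter]
    have hzm : z (i + 1) ∈ S.Vu (S.g (S.g^[i] y)) := by
      have := Dn_symm_mem S j yn hwm
      rw [e4] at this
      show Dn S.symm (i + 1 + j - (i + 1)) yn w ∈ _
      rw [e1]
      exact this
    have hzw : Dn S j (S.g (S.g^[i] y)) (z (i + 1)) = w := by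
      have := Dn_Dn_symm S j yn hwm
      rw [e4] at this
      show Dn S j (S.g (S.g^[i] y)) (Dn S.symm (i + 1 + j - (i + 1)) yn w) = w
      rw [e1]
      exact this
    have hz0 : z (i + 1) ≠ 0 := by
      intro h0
      rw [h0, map_zero] at hzw
      exact hw0 hzw.symm
    have hzi : z i = S.D' (S.g (S.g^[i] y)) (z (i + 1)) := by
      show Dn S.symm (i + 1 + j - i) yn w = S.D' (S.g (S.g^[i] y))
        (Dn S.symm (i + 1 + j - (i + 1)) yn w)
      rw [e1, e2, Dn_succ]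
      change S.D' (S.g.symm^[j] yn) _ = _
      rw [e4]
    have key := tele_step h hC₁ hnear' hstep (i := i) (j := j) (x := x) (a := S.g^[i] x)
      (b := S.g^[i] y) rfl (hd i (by omega)) (by
        have := hd (i + 1) (by omega)
        rwa [Function.iterate_succ_apply', Function.iterate_succ_apply'] at this)
      (hκ0 i) (hκ0 j) (hκ i x) (hκ j _) hv hv0 hzm hz0
    rw [hzw, ← hzi] at key
    show ‖Dn S (i + 1 + j - (i + 1)) (S.g^[i + 1] y) (Pu (S.g^[i + 1] y) (Dn S (i + 1) x v))‖ *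
      ‖Dn S.symm (i + 1) (S.g^[i + 1] x) (Pu (S.g^[i + 1] x) (z (i + 1)))‖ ≤
      ‖Dn S (i + 1 + j - i) (S.g^[i] y) (Pu (S.g^[i] y) (Dn S i x v))‖ *
      ‖Dn S.symm i (S.g^[i] x) (Pu (S.g^[i] x) (z i))‖ +
      C₁ * (1 + 2 * S.Lu) * dist (S.g^[i] x) (S.g^[i] y) *
      (κ i * κ (i + 1 + j - 1 - i)) * (‖v‖ * ‖w‖)
    rw [e1, e2, e3, Function.iterate_succ_apply', Function.iterate_succ_apply']
    exact key
  have hsum : ∀ m ≤ n, q m ≤ q 0 + ∑ i ∈ range m, t i := by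
    intro m
    induction m with
    | zero => intro _; simp
    | succ m ih =>
      intro hm
      have h1 := ih (by omega)
      have h2 := hq m (by omega)
      rw [Finset.sum_range_succ]
      linarith
  have hqn := hsum n le_rfl
  -- upper bound for `q 0`
  have hq0 : q 0 ≤ 8 * ky * (‖v‖ * ‖w'‖) := by
    have e1 : q 0 = ‖Dn S n y (Pu y v)‖ * ‖Pu x (Dn S.symm n yn w)‖ := rfl
    have hz0m : Dn S.symm n yn w ∈ S.Vu y := by
      have := Dn_symm_mem S n yn hwm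
      rwa [hyn, iter_symm_iter] at this
    have hz0w : Dn S n y (Dn S.symm n yn w) = w := by
      have := Dn_Dn_symm S n yn hwm
      rwa [hyn, iter_symm_iter] at this
    have h1 := (norm_le_two (x := y) (hnear' y x (by rw [dist_comm]; exact hd0) _ hz0m)).1
    have h2 := hky (Pu y v) (h.mem y v) _ hz0m
    rw [hz0w] at h2
    have h3 := (norm_le_two (x := x) (hnear' x y hd0 v hv)).1
    rw [e1]
    calc ‖Dn S n y (Pu y v)‖ * ‖Pu x (Dn S.symm n yn w)‖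
        ≤ ‖Dn S n y (Pu y v)‖ * (2 * ‖Dn S.symm n yn w‖) :=
          mul_le_mul_of_nonneg_left h1 (norm_nonneg _)
      _ = 2 * (‖Dn S n y (Pu y v)‖ * ‖Dn S.symm n yn w‖) := by ring
      _ ≤ 2 * (ky * (‖w‖ * ‖Pu y v‖)) := by linarith
      _ ≤ 2 * (ky * ((2 * ‖w'‖) * (2 * ‖v‖))) := by gcongr
      _ = _ := by ring
  -- lower bound for `q n`
  have hqn' : 1 / 2 * k * (‖v‖ * ‖w'‖) ≤ q n := by
    have e1 : q n = ‖Pu yn Av‖ * ‖Dn S.symm n xn (Pu xn w)‖ := by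
      show ‖Dn S (n - n) yn (Pu yn (Dn S n x v))‖ *
        ‖Dn S.symm n xn (Pu xn (Dn S.symm (n - n) yn w))‖ = _
      rw [Nat.sub_self]
      rfl
    have h1 := (norm_le_two (x := xn) (hnear' xn yn hdn Av hAvm)).2
    set e := Pu xn (w - w') with he
    have hem : e ∈ S.Vu xn := h.mem xn _
    have e2 : Pu xn w = w' + e := by
      rw [he, map_sub, h.id xn hw'm]; abel
    have hen : ‖e‖ ≤ 1 / 8 * ‖w'‖ := by
      have h3 := h.norm xn (w - w')
      have h4 := hnear xn yn hdn w' hw'm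
      rw [← hw] at h4
      calc ‖e‖ ≤ S.K * ‖w - w'‖ := h3
        _ ≤ S.K * (1 / (8 * S.K) * ‖w'‖) := mul_le_mul_of_nonneg_left h4 (by linarith)
        _ = _ := by
            have : S.K ≠ 0 := by linarith
            field_simp
    have e3 : Dn S.symm n xn w' = w₀ := Dn_symm_Dn S n x hw₀
    set f := Dn S.symm n xn e with hf
    have hfm : f ∈ S.Vu x := by
      have := Dn_symm_mem S n xn hem
      rwa [hxn, iter_symm_iter] at this
    have hfe : Dn S n x f = e := by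
      have := Dn_Dn_symm S n xn hem
      rwa [hxn, iter_symm_iter] at this
    have h5 := hk v hv f hfm
    rw [hfe] at h5
    have h6 : ‖w₀‖ - ‖f‖ ≤ ‖Dn S.symm n xn (Pu xn w)‖ := by
      rw [e2, map_add, e3, ← hf]
      have := norm_sub_le (w₀ + f) f
      rw [add_sub_cancel_right] at this
      linarith
    rw [e1]
    have hAvn : 0 ≤ ‖Av‖ := norm_nonneg _
    have h7 : 3 / 4 * k * (‖v‖ * ‖w'‖) ≤ ‖Av‖ * ‖Dn S.symm n xn (Pu xn w)‖ := by
      have h8 : ‖Av‖ * (‖w₀‖ - ‖f‖) ≤ ‖Av‖ * ‖Dn S.symm n xn (Pu xn w)‖ :=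
        mul_le_mul_of_nonneg_left h6 hAvn
      have h9 : k * (‖e‖ * ‖v‖) ≤ k * ((1 / 8 * ‖w'‖) * ‖v‖) := by gcongr
      have h10 : ‖Av‖ * (‖w₀‖ - ‖f‖) = ‖Av‖ * ‖w₀‖ - ‖Av‖ * ‖f‖ := by ring
      have h11 : 7 / 8 * k * (‖w'‖ * ‖v‖) ≤ ‖Av‖ * ‖w₀‖ := hopt
      have h12 : 7 / 8 * k * (‖w'‖ * ‖v‖) - k * ((1 / 8 * ‖w'‖) * ‖v‖) =
        3 / 4 * k * (‖v‖ * ‖w'‖) := by ring
      linarith
    have h13 : 0 ≤ ‖Dn S.symm n xn (Pu xn w)‖ := norm_nonneg _
    have h14 : 7 / 8 * ‖Av‖ * ‖Dn S.symm n xn (Pu xn w)‖ ≤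
        ‖Pu yn Av‖ * ‖Dn S.symm n xn (Pu xn w)‖ := mul_le_mul_of_nonneg_right h1 h13
    have h15 : 0 ≤ k * (‖v‖ * ‖w'‖) := by positivity
    nlinarith
  have hts : ∑ i ∈ range n, t i = C₁ * (1 + 2 * S.Lu) *
      (∑ i ∈ range n, dist (S.g^[i] x) (S.g^[i] y) * (κ i * κ (n - 1 - i))) * (‖v‖ * ‖w‖) := by
    rw [Finset.mul_sum, Finset.sum_mul]
    refine Finset.sum_congr rfl fun i _ => ?_
    show C₁ * (1 + 2 * S.Lu) * dist (S.g^[i] x) (S.g^[i] y) *
      (κ i * κ (n - 1 - i)) * (‖v‖ * ‖w‖) = _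
    ring
  set Sg := ∑ i ∈ range n, dist (S.g^[i] x) (S.g^[i] y) * (κ i * κ (n - 1 - i)) with hSg
  have hSg0 : 0 ≤ Sg := Finset.sum_nonneg fun i _ =>
    mul_nonneg dist_nonneg (mul_nonneg (hκ0 _) (hκ0 _))
  have h16 : C₁ * (1 + 2 * S.Lu) * Sg * (‖v‖ * ‖w‖) ≤
      C₁ * (1 + 2 * S.Lu) * Sg * (‖v‖ * (2 * ‖w'‖)) := by gcongr
  have h17 : (‖v‖ * ‖w'‖) * k ≤ (‖v‖ * ‖w'‖) * (16 * ky + 4 * (C₁ * (1 + 2 * S.Lu)) * Sg) := by
    rw [hts] at hqn
    nlinarith
  exact le_of_mul_le_mul_left h17 (by positivity)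

theorem key (S : HypSys X E) {Q r : ℝ} (hQ : Quad S Q r) : ∃ ρ > 0, ∃ C : ℝ, 0 ≤ C ∧
    ∀ (n : ℕ) (x y : X) (κ : ℕ → ℝ) (ky : ℝ), (∀ i ≤ n, dist (S.g^[i] x) (S.g^[i] y) < ρ) →
      (∀ i, 0 ≤ κ i) → (∀ i z, QA S i z (κ i)) → 0 ≤ ky → QA S n y ky →
      QA S n x (16 * ky + C * ∑ i ∈ range n,
        dist (S.g^[i] x) (S.g^[i] y) * (κ i * κ (n - 1 - i))) := by
  obtain ⟨Pu, h⟩ := exists_PD S
  have hK1 := S.one_le_K
  have hLu := S.one_le_Lu
  have hQ0 := hQ.Q_pos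
  obtain ⟨r₁, hr₁, hn⟩ := h.near (1 / (8 * S.K)) (by positivity)
  refine ⟨min r₁ r, lt_min hr₁ hQ.r_pos, 4 * (((S.Lu + 1) * S.K * Q) * (1 + 2 * S.Lu)),
    by positivity, fun n x y κ ky hd hκ0 hκ hky0 hky => ?_⟩
  exact key_aux h (by positivity) (fun x y hxy => hn x y (hxy.trans_le (min_le_left _ _)))
    (fun x y hxy => h.step hQ x y (hxy.trans_le (min_le_right _ _))) n x y κ ky hd hκ0 hκ hky0 hky

/-- The optimal uniform bound for the distortions of `Dⁿ`. -/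
noncomputable def kap (S : HypSys X E) (n : ℕ) : ℝ := sInf {k : ℝ | 1 ≤ k ∧ ∀ x, QA S n x k}

theorem kap_mem (S : HypSys X E) (n : ℕ) : S.Lu ^ n ∈ {k : ℝ | 1 ≤ k ∧ ∀ x, QA S n x k} :=
  ⟨one_le_pow₀ S.one_le_Lu, fun x => QA.triv S n x⟩

theorem kap_bdd (S : HypSys X E) (n : ℕ) : BddBelow {k : ℝ | 1 ≤ k ∧ ∀ x, QA S n x k} :=
  ⟨1, fun _ h => h.1⟩

theorem one_le_kap (S : HypSys X E) (n : ℕ) : 1 ≤ kap S n :=
  le_csInf ⟨_, kap_mem S n⟩ fun _ h => h.1

theorem kap_le (S : HypSys X E) {n : ℕ} {k : ℝ} (h1 : 1 ≤ k) (h : ∀ x, QA S n x k) :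
    kap S n ≤ k := csInf_le (kap_bdd S n) ⟨h1, h⟩

theorem kap_le_pow (S : HypSys X E) (n : ℕ) : kap S n ≤ S.Lu ^ n :=
  csInf_le (kap_bdd S n) (kap_mem S n)

theorem qa_kap (S : HypSys X E) (n : ℕ) (x : X) : QA S n x (kap S n) := by
  refine QA.of_ne fun v hv w hw hv0 hw0 => ?_
  have h1 := Dn_pos (S := S) n hw hw0
  have h2 := norm_pos_iff.mpr hv0
  rw [← div_le_iff₀ (by positivity)]
  refine le_csInf ⟨_, kap_mem S n⟩ fun k hk => ?_
  rw [div_le_iff₀ (by positivity)]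
  exact hk.2 x v hv w hw

theorem kap_mul (S : HypSys X E) (m n : ℕ) : kap S (m + n) ≤ kap S m * kap S n := by
  have h1 := one_le_kap S m
  have h2 := one_le_kap S n
  refine kap_le S (by nlinarith) fun x => ?_
  rw [mul_comm (kap S m)]
  exact (qa_kap S n x).comp (qa_kap S m _) (by linarith)

/-- Bounded distortion at the periodic points implies bounded distortion, if orbit segments can
be closed. -/
theorem qc_of_closing (S : HypSys X E) {Q r : ℝ} (hQ : Quad S Q r) {δ₁ : ℝ} (hδ₁ : 0 < δ₁)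
    (hclo : ∀ δ, 0 < δ → δ ≤ δ₁ → ∃ N : ℕ, ∀ (x : X) (n : ℕ), ∃ m ≤ N, ∃ p, 1 ≤ n + m ∧
      S.g^[n + m] p = p ∧
      ∀ i ≤ n, dist (S.g^[i] x) (S.g^[i] p) ≤ δ * (1 / 2) ^ i + δ * (1 / 2) ^ (n - i))
    {K₀ : ℝ} (hper : ∀ (n : ℕ) (p : X), 1 ≤ n → S.g^[n] p = p → QA S n p K₀) :
    ∃ K, QC S K := by
  obtain ⟨ρ, hρ, C, hC, hkey⟩ := key S hQ
  have hper' : ∀ (n : ℕ) (p : X), 1 ≤ n → S.g^[n] p = p → QA S n p (max K₀ 1) :=
    fun n p hn hp => (hper n p hn hp).mono (le_max_left _ _)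
  set K₁ := max K₀ 1 with hK₁
  have hK₁1 : 1 ≤ K₁ := le_max_right _ _
  have h1 := one_le_kap S
  have h0 : ∀ n, 0 ≤ kap S n := fun n => le_trans zero_le_one (h1 n)
  obtain ⟨B, hB⟩ := num_bdd (kap S) h1 (kap_mul S) hC (δ₀ := min δ₁ (ρ / 4))
    (lt_min hδ₁ (by positivity)) (by
    intro δ hδ0 hδ
    obtain ⟨N, hN⟩ := hclo δ hδ0 (hδ.trans (min_le_left _ _))
    have hδρ : 2 * δ < ρ := by
      have : δ ≤ ρ / 4 := hδ.trans (min_le_right _ _)
      linarith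
    set K₂ := K₁ * S.Lu ^ N with hK₂
    have hLN : 1 ≤ S.Lu ^ N := one_le_pow₀ S.one_le_Lu
    have hK₂1 : 1 ≤ K₂ := by
      have := mul_le_mul hK₁1 hLN zero_le_one (by linarith)
      linarith
    refine ⟨16 * K₂, fun a m => ?_⟩
    have hs0 : 0 ≤ ∑ i ∈ range m, (((1:ℝ) / 2) ^ i + (1 / 2) ^ (m - i)) *
        (kap S i * kap S (m - 1 - i)) :=
      Finset.sum_nonneg fun i _ => mul_nonneg (by positivity) (mul_nonneg (h0 _) (h0 _))
    have ha1 := h1 a
    have ha4 : 1 ≤ kap S a ^ 4 := one_le_pow₀ ha1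
    refine kap_le S ?_ fun x => ?_
    · have t1 : 0 ≤ C * δ * kap S a ^ 2 * (1 / 2) ^ a *
          ∑ i ∈ range m, (((1:ℝ) / 2) ^ i + (1 / 2) ^ (m - i)) *
            (kap S i * kap S (m - 1 - i)) := by
        have := h0 a
        positivity
      nlinarith
    · obtain ⟨l, hl, p, hn1, hp, hdist⟩ := hN x (m + 2 * a)
      have hpn : QA S (m + 2 * a) p K₂ := by
        have t1 := hper' _ p hn1 hp
        have t2 : QA S (l + ((m + 2 * a) + 0)) p K₁ := by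
          have e : l + ((m + 2 * a) + 0) = m + 2 * a + l := by omega
          rw [e]; exact t1
        have t3 := QA.mid (S := S) (a := 0) (m := m + 2 * a) (b := l) (x := p) (ka := 1)
          (kb := S.Lu ^ l) t2 (by simpa using QA.triv S 0 p) (QA.triv S l _)
        simp only [Function.iterate_zero, id_eq] at t3
        refine t3.mono ?_
        rw [one_mul, hK₂]
        refine mul_le_mul_of_nonneg_left ?_ (by linarith)
        exact pow_le_pow_right₀ S.one_le_Lu hl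
      have hpm : QA S m (S.g^[a] p) (kap S a * K₂ * kap S a) := by
        have t2 : QA S (a + (m + a)) p K₂ := by
          have e : a + (m + a) = m + 2 * a := by omega
          rw [e]; exact hpn
        exact QA.mid t2 (qa_kap S a p) (qa_kap S a _)
      have hda : ∀ i ≤ m, dist (S.g^[i] (S.g^[a] x)) (S.g^[i] (S.g^[a] p)) ≤
          δ * (1 / 2) ^ a * ((1 / 2) ^ i + (1 / 2) ^ (m - i)) := by
        intro i hi
        have t1 := hdist (i + a) (by omega)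
        rw [Function.iterate_add_apply, Function.iterate_add_apply] at t1
        refine t1.trans (le_of_eq ?_)
        have e : m + 2 * a - (i + a) = (m - i) + a := by omega
        rw [e, pow_add, pow_add]; ring
      have hmid := hkey m (S.g^[a] x) (S.g^[a] p) (kap S) (kap S a * K₂ * kap S a) (by
        intro i hi
        refine lt_of_le_of_lt (hda i hi) ?_
        have u1 : ((1:ℝ) / 2) ^ a ≤ 1 := pow_le_one₀ (by norm_num) (by norm_num)
        have u2 : ((1:ℝ) / 2) ^ i ≤ 1 := pow_le_one₀ (by norm_num) (by norm_num)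
        have u3 : ((1:ℝ) / 2) ^ (m - i) ≤ 1 := pow_le_one₀ (by norm_num) (by norm_num)
        calc δ * (1 / 2) ^ a * ((1 / 2) ^ i + (1 / 2) ^ (m - i)) ≤ δ * 1 * (1 + 1) := by gcongr
          _ < ρ := by linarith) h0 (fun i z => qa_kap S i z)
        (by have := h0 a; positivity) hpm
      have hxm : QA S m (S.g^[a] x) (16 * (kap S a * K₂ * kap S a) + C * ∑ i ∈ range m,
          (δ * (1 / 2) ^ a * ((1 / 2) ^ i + (1 / 2) ^ (m - i))) *
            (kap S i * kap S (m - 1 - i))) := by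
        refine hmid.mono ?_
        gcongr with i hi
        · exact mul_nonneg (h0 _) (h0 _)
        · exact hda i (Finset.mem_range.mp hi).le
      have hx1 := (qa_kap S a x).comp hxm (h0 a)
      have hx2 := hx1.comp (m := a) (qa_kap S a _) (by
        refine mul_nonneg (h0 a) (add_nonneg ?_ (mul_nonneg hC ?_))
        · have := h0 a; positivity
        · exact Finset.sum_nonneg fun i _ => mul_nonneg (by positivity)
            (mul_nonneg (h0 _) (h0 _)))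
      have e1 : a + (m + a) = m + 2 * a := by omega
      rw [e1] at hx2
      refine hx2.mono (le_of_eq ?_)
      have e2 : ∑ i ∈ range m, (δ * (1 / 2) ^ a * ((1 / 2) ^ i + (1 / 2) ^ (m - i))) *
          (kap S i * kap S (m - 1 - i)) = δ * (1 / 2) ^ a * ∑ i ∈ range m,
            ((1 / 2) ^ i + (1 / 2) ^ (m - i)) * (kap S i * kap S (m - 1 - i)) := by
        rw [Finset.mul_sum]
        exact Finset.sum_congr rfl fun i _ => by ring
      rw [e2]
      ring)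
  exact ⟨B, fun n x => (qa_kap S n x).mono (hB n)⟩

end Pool.Agent.Y321.PD
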