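import Pool.Agent.Y321.PJ.Main

set_option autoImplicit false
set_option linter.unusedSectionVars false

open scoped Manifold ContDiff Topology Bundle
open Set Filter Bundle

namespace Pool.Agent.Y321.PD

open Pool.Agent.H721R2 Pool.Agent.H789R2.AN Pool.Agent.Y321.PJ

/-- The determinant and two complementary invariant subspaces. -/
theorem det_split {V : Type*} [AddCommGroup V] [Module ℝ V] [FiniteDimensional ℝ V]
    (D : V →ₗ[ℝ] V) (A B : Submodule ℝ V) (h : IsCompl A B)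
    (hA : ∀ v ∈ A, D v ∈ A) (hB : ∀ v ∈ B, D v ∈ B) :
    LinearMap.det D = LinearMap.det (D.restrict hA) * LinearMap.det (D.restrict hB) := by
  have h1 : D = ((Submodule.prodEquivOfIsCompl A B h).toLinearMap ∘ₗ
      LinearMap.prodMap (D.restrict hA) (D.restrict hB)) ∘ₗ
        (Submodule.prodEquivOfIsCompl A B h).symm.toLinearMap := by
    apply LinearMap.ext
    intro v
    obtain ⟨⟨a, b⟩, rfl⟩ := (Submodule.prodEquivOfIsCompl A B h).surjective v
    simp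
  rw [← LinearMap.det_prodMap, ← LinearMap.det_conj (LinearMap.prodMap (D.restrict hA)
    (D.restrict hB)) (Submodule.prodEquivOfIsCompl A B h)]
  congr 1

/-- `|det (D | W)|` for a subspace `W` preserved by `D` (and `0` if `W` is not preserved). -/
noncomputable def detOn {V : Type*} [AddCommGroup V] [Module ℝ V] (D : V →ₗ[ℝ] V)
    (W : Submodule ℝ V) : ℝ :=
  open Classical in if h : ∀ v ∈ W, D v ∈ W then |LinearMap.det (D.restrict h)| else 0

theorem detOn_nonneg {V : Type*} [AddCommGroup V] [Module ℝ V] (D : V →ₗ[ℝ] V)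
    (W : Submodule ℝ V) : 0 ≤ detOn D W := by
  unfold detOn
  split_ifs
  · exact abs_nonneg _
  · exact le_rfl

theorem detOn_mul {V : Type*} [AddCommGroup V] [Module ℝ V] [FiniteDimensional ℝ V]
    (D : V →ₗ[ℝ] V) (A B : Submodule ℝ V) (h : IsCompl A B)
    (hA : ∀ v ∈ A, D v ∈ A) (hB : ∀ v ∈ B, D v ∈ B) :
    |LinearMap.det D| = detOn D A * detOn D B := by
  rw [detOn, dif_pos hA, detOn, dif_pos hB, ← abs_mul, det_split D A B h hA hB]

/-- A subspace of a tangent space of `M`, as a subspace of the model space `E`. -/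
def toE (E : Type*) [NormedAddCommGroup E] [NormedSpace ℝ E]
    {M : Type*} [TopologicalSpace M] [ChartedSpace E M] {x : M}
    (W : Submodule ℝ (TangentSpace 𝓘(ℝ, E) x)) : Submodule ℝ E := W

/-- `|det (D(fᵏ)(p) | V p)|` for a point `p` with `fᵏ(p) = p` and a subspace `V p` preserved by
`D(fᵏ)(p)`. -/
noncomputable def jacOn (E : Type*) [NormedAddCommGroup E] [NormedSpace ℝ E]
    {M : Type*} [TopologicalSpace M] [ChartedSpace E M] (f : M → M)
    (V : ∀ x : M, Submodule ℝ (TangentSpace 𝓘(ℝ, E) x)) (k : ℕ) (p : M) : ℝ :=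
  detOn (mfderiv 𝓘(ℝ, E) 𝓘(ℝ, E) (f^[k]) p : E →L[ℝ] E).toLinearMap (toE E (V p))

section

variable {E : Type*} [NormedAddCommGroup E] [NormedSpace ℝ E] [FiniteDimensional ℝ E]
  {M : Type*} [TopologicalSpace M] [T2Space M] [CompactSpace M] [ConnectedSpace M]
  [ChartedSpace E M] [IsManifold 𝓘(ℝ, E) ∞ M]

theorem inv_iter (f : M → M) (hf : ContMDiff 𝓘(ℝ, E) 𝓘(ℝ, E) 1 f)
    (V : ∀ x : M, Submodule ℝ (TangentSpace 𝓘(ℝ, E) x)) (hV : InvariantField f V) (k : ℕ) :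
    ∀ (x : M) (v : TangentSpace 𝓘(ℝ, E) x), v ∈ V x →
      mfderiv 𝓘(ℝ, E) 𝓘(ℝ, E) (f^[k]) x v ∈ V (f^[k] x) := by
  induction k with
  | zero =>
    intro x v hv
    have h1 : mfderiv 𝓘(ℝ, E) 𝓘(ℝ, E) (f^[0]) x v = v := by
      rw [Function.iterate_zero, mfderiv_id]
      rfl
    rw [h1]
    exact hv
  | succ k ih =>
    intro x v hv
    have hit : ContMDiff 𝓘(ℝ, E) 𝓘(ℝ, E) 1 (f^[k]) := iter_smooth f hf k
    have h1 : mfderiv 𝓘(ℝ, E) 𝓘(ℝ, E) (f^[k + 1]) x v =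
        mfderiv 𝓘(ℝ, E) 𝓘(ℝ, E) (f^[k]) (f x) (mfderiv 𝓘(ℝ, E) 𝓘(ℝ, E) f x v) := by
      rw [Function.iterate_succ]
      have h2 := mfderiv_comp x (g := f^[k]) (f := f)
        ((hit.mdifferentiable one_ne_zero) (f x)) ((hf.mdifferentiable one_ne_zero) x)
      rw [h2]
      rfl
    rw [h1]
    refine ih (f x) _ ?_
    rw [← hV x]
    exact Submodule.mem_map_of_mem hv

theorem jac_mul (f : Diffeomorph 𝓘(ℝ, E) 𝓘(ℝ, E) M M 1)
    (Es Eu : ∀ x : M, Submodule ℝ (TangentSpace 𝓘(ℝ, E) x)) (hA : IsAnosov f Es Eu)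
    (k : ℕ) (p : M) (hp : f^[k] p = p) :
    perJac E f k p = jacOn E f Eu k p * jacOn E f Es k p ∧ perJac E f k p ≠ 0 := by
  have hf1 : ContMDiff 𝓘(ℝ, E) 𝓘(ℝ, E) 1 f := f.contMDiff_toFun
  have hf1' : ContMDiff 𝓘(ℝ, E) 𝓘(ℝ, E) 1 f.symm := f.symm.contMDiff_toFun
  have hu : ∀ v ∈ Eu p, mfderiv 𝓘(ℝ, E) 𝓘(ℝ, E) (f^[k]) p v ∈ Eu p := by
    intro v hv
    have h1 := inv_iter f hf1 Eu hA.map_u k p v hv
    have h2 : ∀ q : M, q = p → ∀ w : E, w ∈ Eu q → w ∈ Eu p := by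
      rintro q rfl w hw
      exact hw
    exact h2 _ hp _ h1
  have hs : ∀ v ∈ Es p, mfderiv 𝓘(ℝ, E) 𝓘(ℝ, E) (f^[k]) p v ∈ Es p := by
    intro v hv
    have h1 := inv_iter f hf1 Es hA.map_s k p v hv
    have h2 : ∀ q : M, q = p → ∀ w : E, w ∈ Es q → w ∈ Es p := by
      rintro q rfl w hw
      exact hw
    exact h2 _ hp _ h1
  constructor
  · have key : ∀ (D : E →ₗ[ℝ] E) (A B : Submodule ℝ E), IsCompl A B → (∀ v ∈ A, D v ∈ A) →
        (∀ v ∈ B, D v ∈ B) → |LinearMap.det D| = detOn D A * detOn D B :=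
      fun D A B h hA hB => detOn_mul D A B h hA hB
    exact key (mfderiv 𝓘(ℝ, E) 𝓘(ℝ, E) (f^[k]) p : E →L[ℝ] E).toLinearMap
      (toE E (Eu p)) (toE E (Es p)) (hA.isCompl p).symm hu hs
  · have hli : ∀ x, f.symm^[k] (f^[k] x) = x := fun x =>
      (Function.LeftInverse.iterate (f := f) (g := f.symm) (fun x => f.symm_apply_apply x) k) x
    have h1 := det_dg_ne (E := E) (f^[k]) (f.symm^[k]) (iter_smooth f hf1 k)
      (iter_smooth f.symm hf1' k) hli p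
    have h2 : (dg E (f^[k]) p).det ≠ 0 := fun h => by
      rw [h, mul_zero] at h1
      exact zero_ne_one h1
    exact abs_ne_zero.mpr h2

theorem jac_pos (f : Diffeomorph 𝓘(ℝ, E) 𝓘(ℝ, E) M M 1)
    (Es Eu : ∀ x : M, Submodule ℝ (TangentSpace 𝓘(ℝ, E) x)) (hA : IsAnosov f Es Eu)
    (k : ℕ) (p : M) (hp : f^[k] p = p) :
    0 < jacOn E f Eu k p ∧ 0 < jacOn E f Es k p ∧
      perJac E f k p = jacOn E f Eu k p * jacOn E f Es k p := by
  obtain ⟨h1, h2⟩ := jac_mul f Es Eu hA k p hp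
  rw [h1] at h2
  exact ⟨lt_of_le_of_ne (detOn_nonneg _ _) (Ne.symm (left_ne_zero_of_mul h2)),
    lt_of_le_of_ne (detOn_nonneg _ _) (Ne.symm (right_ne_zero_of_mul h2)), h1⟩

end

end Pool.Agent.Y321.PD
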