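import Pool.Agent.H779R2.An.QCM
import Pool.Agent.Y321.PD.Clo

set_option autoImplicit false
set_option linter.unusedSectionVars false

open scoped Manifold ContDiff Topology Bundle
open Set Filter Bundle

namespace Pool.Agent.Y321.PD

open Pool.Agent.H721R2 Pool.Agent.H779R2.An

variable {E₀ : Type*} [NormedAddCommGroup E₀] [NormedSpace ℝ E₀] [FiniteDimensional ℝ E₀]
  {M : Type*} [MetricSpace M] [CompactSpace M] [ChartedSpace E₀ M] [IsManifold 𝓘(ℝ, E₀) ∞ M]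
  {F : Type*} [NormedAddCommGroup F] [NormedSpace ℝ F]

theorem Dn_dm' {e : M → F}
    {f : M ≃ₜ M} {Es Eu : M → Submodule ℝ E₀} {C a b Ls Lu : ℝ}
    (h : EAnosov e f Es Eu C a b Ls Lu)
    {S : HypSys M F} {N : ℕ} (hS : Realizes S e f Es Eu N) (n : ℕ) (x : M) (v : E₀) :
    Dn S n x (dm E₀ e x v) = dm E₀ e (f^[N * n] x) (dg E₀ (f^[N * n]) x v) := by
  induction n with
  | zero =>
    show dm E₀ e x v = dm E₀ e x (dg E₀ (id : M → M) x v)
    have h1 : dg E₀ (id : M → M) x v = v := by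
      show mfderiv 𝓘(ℝ, E₀) 𝓘(ℝ, E₀) id x v = v
      rw [mfderiv_id]
      rfl
    rw [h1]
  | succ n ih =>
    show S.D (S.g^[n] x) (Dn S n x (dm E₀ e x v)) = _
    rw [ih]
    have hg : S.g^[n] x = f^[N * n] x := by
      rw [hS.g_eq, Function.iterate_mul]
      rfl
    rw [hg, hS.D_eq]
    have h1 : f^[N * (n + 1)] = f^[N] ∘ f^[N * n] := by
      rw [← Function.iterate_add]
      congr 1
      ring
    rw [h1, dg_comp _ _ (iter_smooth f h.smooth (N * n)) (iter_smooth f h.smooth N)]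
    rfl

/-- The distortions of a diffeomorphism and of the system which realizes a power of it. -/
theorem qa_of_realizes {N' : TangentBundle 𝓘(ℝ, E₀) M → ℝ} (hN : IsTangentNorm N')
    {e : M → F} (he : ContMDiff 𝓘(ℝ, E₀) 𝓘(ℝ, F) 1 e)
    (hinj : ∀ x, Function.Injective (dm E₀ e x))
    {f : M ≃ₜ M} {Es Eu : M → Submodule ℝ E₀} {C a b Ls Lu : ℝ}
    (h : EAnosov e f Es Eu C a b Ls Lu) (K : ℝ)
    {S : HypSys M F} {N : ℕ} (hS : Realizes S e f Es Eu N) : ∃ K', ∀ (n : ℕ) (x : M),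
    (∀ v ∈ Eu x, ∀ w ∈ Eu x,
      tnm N' (f^[N * n] x) (dg E₀ (f^[N * n]) x v) * tnm N' x w ≤
        K * (tnm N' (f^[N * n] x) (dg E₀ (f^[N * n]) x w) * tnm N' x v)) →
    ∀ v ∈ S.Vu x, ∀ w ∈ S.Vu x, ‖Dn S n x v‖ * ‖w‖ ≤ K' * (‖Dn S n x w‖ * ‖v‖) := by
  obtain ⟨R, hR, hcmp⟩ := tnm_compare hN e he hinj
  refine ⟨R * R * |K| * (R * R), ?_⟩
  intro n x hqc v hv w hw
  rw [hS.Vu_eq] at hv hw
  obtain ⟨v₀, hv₀, rfl⟩ := hv
  obtain ⟨w₀, hw₀, rfl⟩ := hw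
  change ‖Dn S n x (dm E₀ e x v₀)‖ * ‖dm E₀ e x w₀‖ ≤
    R * R * |K| * (R * R) * (‖Dn S n x (dm E₀ e x w₀)‖ * ‖dm E₀ e x v₀‖)
  rw [Dn_dm' h hS, Dn_dm' h hS]
  set z := f^[N * n] x with hz
  set V := dg E₀ (f^[N * n]) x v₀ with hV
  set W := dg E₀ (f^[N * n]) x w₀ with hW
  have h1 := hqc v₀ hv₀ w₀ hw₀
  rw [← hV, ← hW] at h1
  have a1 := (hcmp z V).1
  have a2 := (hcmp x w₀).1
  have a3 := (hcmp z W).2
  have a4 := (hcmp x v₀).2
  have p1 := tnm_nonneg hN z V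
  have p2 := tnm_nonneg hN x w₀
  have p3 := tnm_nonneg hN z W
  have p4 := tnm_nonneg hN x v₀
  have s1 : ‖dm E₀ e z V‖ * ‖dm E₀ e x w₀‖ ≤ (R * tnm N' z V) * (R * tnm N' x w₀) :=
    mul_le_mul a1 a2 (norm_nonneg _) (by positivity)
  have s2 : K * (tnm N' z W * tnm N' x v₀) ≤ |K| * (tnm N' z W * tnm N' x v₀) :=
    mul_le_mul_of_nonneg_right (le_abs_self K) (by positivity)
  have s3 : tnm N' z W * tnm N' x v₀ ≤ (R * ‖dm E₀ e z W‖) * (R * ‖dm E₀ e x v₀‖) :=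
    mul_le_mul a3 a4 p4 (by positivity)
  calc ‖dm E₀ e z V‖ * ‖dm E₀ e x w₀‖ ≤ (R * tnm N' z V) * (R * tnm N' x w₀) := s1
    _ = R * R * (tnm N' z V * tnm N' x w₀) := by ring
    _ ≤ R * R * (|K| * (tnm N' z W * tnm N' x v₀)) :=
        mul_le_mul_of_nonneg_left (h1.trans s2) (by positivity)
    _ ≤ R * R * (|K| * ((R * ‖dm E₀ e z W‖) * (R * ‖dm E₀ e x v₀‖))) := by
        apply mul_le_mul_of_nonneg_left _ (by positivity)
        exact mul_le_mul_of_nonneg_left s3 (abs_nonneg K)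
    _ = R * R * |K| * (R * R) * (‖dm E₀ e z W‖ * ‖dm E₀ e x v₀‖) := by ring

/-- The distortion of the inverse at a periodic point. -/
theorem qa_inverse {N' : TangentBundle 𝓘(ℝ, E₀) M → ℝ}
    {e : M → F} {f : M ≃ₜ M} {Es Eu : M → Submodule ℝ E₀} {C a b Ls Lu : ℝ}
    (h : EAnosov e f Es Eu C a b Ls Lu) {K : ℝ} {n : ℕ} {x : M} (hx : f^[n] x = x)
    (hqc : ∀ v ∈ Es x, ∀ w ∈ Es x,
      tnm N' (f^[n] x) (dg E₀ (f^[n]) x v) * tnm N' x w ≤
        K * (tnm N' (f^[n] x) (dg E₀ (f^[n]) x w) * tnm N' x v)) :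
    ∀ v ∈ Es x, ∀ w ∈ Es x,
      tnm N' (f.symm^[n] x) (dg E₀ (f.symm^[n]) x v) * tnm N' x w ≤
        K * (tnm N' (f.symm^[n] x) (dg E₀ (f.symm^[n]) x w) * tnm N' x v) := by
  intro v hv w hw
  have hx' : f.symm^[n] x = x := by
    have h2 : f.symm^[n] (f^[n] x) = x := (Function.LeftInverse.iterate f.symm_apply_apply n) x
    rwa [hx] at h2
  have m1 := h.mapS' n x w hw
  have m2 := h.mapS' n x v hv
  have h1 := hqc (dg E₀ (f.symm^[n]) x w) (by rw [hx'] at m1; exact m1)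
    (dg E₀ (f.symm^[n]) x v) (by rw [hx'] at m2; exact m2)
  have h3 := fun u => dg_inv (f.symm^[n]) (f^[n]) (iter_smooth f.symm h.smooth' n)
    (iter_smooth f h.smooth n) (iter_right f n) x u
  rw [hx'] at h3
  rw [h3, h3, hx] at h1
  rw [hx']
  linarith

end Pool.Agent.Y321.PD
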