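import Pool.Agent.H576R3.CF.Main
import Pool.Agent.Y321.PD.Real
import Pool.Agent.Y321.PJ.Main

set_option autoImplicit false
set_option linter.unusedSectionVars false

open scoped Manifold ContDiff Topology Bundle
open Set Filter Bundle

namespace Pool.Agent.Y321.PD

open Pool.Agent.H721R2 Pool.Agent.H789R2.AN Pool.Agent.H789R2.GP Pool.Agent.H779R2.An
  Pool.Agent.H779R2.To Pool.Agent.H779R2.Nu Pool.Agent.H147R2.RI Pool.Agent.H576R3.CF

/-- The return maps at the periodic points have uniformly bounded distortion on `V`. -/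
def PerDist {E : Type*} [NormedAddCommGroup E] [NormedSpace ℝ E]
    {M : Type*} [TopologicalSpace M] [ChartedSpace E M] (f : M → M)
    (N : TangentBundle 𝓘(ℝ, E) M → ℝ) (V : ∀ x : M, Submodule ℝ (TangentSpace 𝓘(ℝ, E) x)) : Prop :=
  ∃ K : ℝ, ∀ (k : ℕ) (p : M), 1 ≤ k → f^[k] p = p → ∀ v ∈ V p, ∀ w ∈ V p,
    N (tangentMap 𝓘(ℝ, E) 𝓘(ℝ, E) (f^[k]) ⟨p, v⟩) * N ⟨p, w⟩ ≤
      K * (N (tangentMap 𝓘(ℝ, E) 𝓘(ℝ, E) (f^[k]) ⟨p, w⟩) * N ⟨p, v⟩)

/-- Nonwandering Anosov diffeomorphisms with bounded distortion at the periodic points on one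
bundle. -/
theorem main_per (E : Type*) [NormedAddCommGroup E] [NormedSpace ℝ E] [FiniteDimensional ℝ E]
    (M : Type*) [TopologicalSpace M] [T2Space M] [CompactSpace M] [ConnectedSpace M]
    [ChartedSpace E M] [IsManifold 𝓘(ℝ, E) ∞ M] (f : Diffeomorph 𝓘(ℝ, E) 𝓘(ℝ, E) M M 1)
    (hf2 : ContMDiff 𝓘(ℝ, E) 𝓘(ℝ, E) 2 f) (hf2' : ContMDiff 𝓘(ℝ, E) 𝓘(ℝ, E) 2 f.symm)
    (Es Eu : ∀ x : M, Submodule ℝ (TangentSpace 𝓘(ℝ, E) x)) (hA : IsAnosov f Es Eu)
    (N : TangentBundle 𝓘(ℝ, E) M → ℝ) (hN : IsTangentNorm N)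
    (ds du : ℕ) (h2s : 2 ≤ ds) (h2u : 2 ≤ du) (hds : ∀ x, Module.finrank ℝ (Es x) = ds)
    (hdu : ∀ x, Module.finrank ℝ (Eu x) = du)
    (hnw : ∀ U : Set M, IsOpen U → U.Nonempty → ∃ m : ℕ, 1 ≤ m ∧ (f^[m] '' U ∩ U).Nonempty)
    (hJ : PerDist f N Eu ∨ PerDist f N Es) :
    InfraToral f ∧ ∃ q : E → M, IsCoveringMap q ∧ Function.Surjective q := by
  obtain ⟨m, e, he, hemb, hinj⟩ := exists_embedding_euclidean_of_compact (I := 𝓘(ℝ, E)) (M := M)
  let _ : MetricSpace M := hemb.isEmbedding.comapMetricSpace e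
  have hiso : ∀ x y : M, dist x y = ‖e x - e y‖ := fun x y => dist_eq_norm (e x) (e y)
  have he1 : ContMDiff 𝓘(ℝ, E) (𝓡 m) 1 e := he.of_le (by simp)
  have he2 : ContMDiff 𝓘(ℝ, E) (𝓡 m) 2 e := he.of_le (by
    exact_mod_cast (ENat.LEInfty.out : (2 : WithTop ℕ∞) ≤ ∞))
  obtain ⟨C', a, b, Ls, Lu, hE⟩ := eanosov_of_isAnosov e he1 hinj f Es Eu hA
  obtain ⟨K, hK, hang⟩ := hE.angle he1 hinj
  have t1 : Tendsto (fun n : ℕ => K * (C' * a ^ n)) atTop (𝓝 0) := by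
    have := ((tendsto_pow_atTop_nhds_zero_of_lt_one hE.a_pos.le hE.a_lt).const_mul C').const_mul K
    simpa using this
  have t2 : Tendsto (fun n : ℕ => K * (C' * b ^ n)) atTop (𝓝 0) := by
    have := ((tendsto_pow_atTop_nhds_zero_of_lt_one hE.b_pos.le hE.b_lt).const_mul C').const_mul K
    simpa using this
  obtain ⟨n, ⟨hn1, hn2⟩, hn3⟩ := ((((tendsto_order.mp t1).2 (1 / 16) (by norm_num)).and
    ((tendsto_order.mp t2).2 (1 / 16) (by norm_num))).and (eventually_ge_atTop 1)).exists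
  obtain ⟨S, hS⟩ := exists_realizes hiso he1 hinj hE K hK hang n hn1.le hn2.le
  obtain ⟨Q, r, hQ⟩ := quad_of_realizes hiso he2 hinj hE hf2 hf2' hS
  have hfin : ∀ (x : M) (V : Submodule ℝ E),
      Module.finrank ℝ (V.map (dm E e x).toLinearMap) = Module.finrank ℝ V := fun x V =>
    (LinearEquiv.finrank_eq (Submodule.equivMapOfInjective (dm E e x).toLinearMap (hinj x) V)).symm
  have hfs : ∀ x, Module.finrank ℝ (S.Vs x) = ds := fun x => by
    rw [hS.Vs_eq, hfin]; exact hds x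
  have hfu : ∀ x, Module.finrank ℝ (S.Vu x) = du := fun x => by
    rw [hS.Vu_eq, hfin]; exact hdu x
  have hgn : ∀ x, f^[n] x = S.g x := fun x => by rw [hS.g_eq]; rfl
  have hgk : ∀ (k : ℕ) (x : M), (S.g^[k]) x = f^[n * k] x := by
    intro k x
    rw [hS.g_eq, Function.iterate_mul]
    rfl
  have hne : Nonempty M := inferInstance
  have htr : ∀ U V : Set M, IsOpen U → U.Nonempty → IsOpen V → V.Nonempty →
      ∃ k : ℕ, (S.g^[k] '' U ∩ V).Nonempty := by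
    intro U V hU hUn hV hVn
    refine trans_of_nw S (fun O hO hOn => ?_) U V hU hUn hV hVn
    obtain ⟨k, hk, hk'⟩ := nw_pow f f.continuous hnw n hn3 O hO hOn
    refine ⟨k, hk, ?_⟩
    have e1 : (S.g^[k]) = (f^[n * k]) := funext (hgk k)
    rwa [e1]
  rcases hJ with ⟨Ku, hKu⟩ | ⟨Ks, hKs⟩
  · obtain ⟨K', hK'⟩ := qa_of_realizes hN he1 hinj hE Ku hS
    obtain ⟨K1, hK1⟩ := qc_of_per S hQ hne htr (K₀ := K') (fun k p hk hp =>
      hK' k p fun v hv w hw => hKu (n * k) p (Nat.mul_pos hn3 hk)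
        (by rw [← hgk]; exact hp) v hv w hw)
    obtain ⟨B₀⟩ := abstract_cs0 S hQ hK1 du h2u hfu htr
    refine ⟨abstract_infra (E' := E) S hQ B₀ du ds h2u h2s hfu hfs f.toHomeomorph n hn3 hgn, ?_⟩
    obtain ⟨q, hq⟩ := abstract_cov_d (E' := E) S hQ B₀ du ds h2u h2s hfu hfs
    exact ⟨q, hq, covering_surj hq⟩
  · have htr' : ∀ U V : Set M, IsOpen U → U.Nonempty → IsOpen V → V.Nonempty →
        ∃ k : ℕ, (S.symm.g^[k] '' U ∩ V).Nonempty := by
      intro U V hU hUn hV hVn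
      obtain ⟨k, _, ⟨x, hx, rfl⟩, hy⟩ := htr V U hV hVn hU hUn
      refine ⟨k, x, ⟨S.g^[k] x, hy, ?_⟩, hx⟩
      exact iter_symm_iter S k x
    obtain ⟨K', hK'⟩ := qa_of_realizes hN he1 hinj hE.symm Ks hS.symm
    obtain ⟨K2, hK2⟩ := qc_of_per S.symm hQ.symm hne htr' (K₀ := K') (fun k p hk hp => by
      have hp' : S.g^[k] p = p := by
        have h1 : S.symm.g^[k] p = p := hp
        have h2 : S.g^[k] (S.symm.g^[k] p) = p := iter_iter_symm S k p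
        rwa [h1] at h2
      have hfp : f^[n * k] p = p := by rw [← hgk]; exact hp'
      exact hK' k p (qa_inverse hE hfp fun v hv w hw =>
        hKs (n * k) p (Nat.mul_pos hn3 hk) hfp v hv w hw))
    obtain ⟨B₀⟩ := abstract_cs0 S.symm hQ.symm hK2 ds h2s hfs htr'
    constructor
    · refine InfraToral.inv f.toHomeomorph ?_
      refine abstract_infra (E' := E) S.symm hQ.symm B₀ ds du h2s h2u hfs hfu
        f.toHomeomorph.symm n hn3 ?_
      intro x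
      apply (Function.Injective.iterate f.toHomeomorph.injective n)
      have h1 : (f.toHomeomorph)^[n] ((f.toHomeomorph.symm)^[n] x) = x :=
        (Function.LeftInverse.iterate f.toHomeomorph.apply_symm_apply n) x
      have h3 : (f.toHomeomorph)^[n] (S.symm.g x) = S.g (S.g.symm x) := hgn _
      rw [h1, h3, Homeomorph.apply_symm_apply]
    · obtain ⟨q, hq⟩ := abstract_cov_d (E' := E) S.symm hQ.symm B₀ ds du h2s h2u hfs hfu
      exact ⟨q, hq, covering_surj hq⟩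

/-- One-sided conditions which make an Anosov diffeomorphism nonwandering. -/
theorem nw_of_jac {E : Type*} [NormedAddCommGroup E] [NormedSpace ℝ E] [FiniteDimensional ℝ E]
    {M : Type*} [TopologicalSpace M] [T2Space M] [CompactSpace M] [ConnectedSpace M]
    [ChartedSpace E M] [IsManifold 𝓘(ℝ, E) ∞ M] (f : Diffeomorph 𝓘(ℝ, E) 𝓘(ℝ, E) M M 1)
    (hf2 : ContMDiff 𝓘(ℝ, E) 𝓘(ℝ, E) 2 f) (hf2' : ContMDiff 𝓘(ℝ, E) 𝓘(ℝ, E) 2 f.symm)
    (Es Eu : ∀ x : M, Submodule ℝ (TangentSpace 𝓘(ℝ, E) x)) (hA : IsAnosov f Es Eu)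
    (hJ : (∀ U : Set M, IsOpen U → U.Nonempty → ∃ m : ℕ, 1 ≤ m ∧ (f^[m] '' U ∩ U).Nonempty) ∨
      (∀ (k : ℕ) (p : M), 1 ≤ k → f^[k] p = p → 1 ≤ Pool.Agent.Y321.PJ.perJac E f k p) ∨
      (∀ (k : ℕ) (p : M), 1 ≤ k → f^[k] p = p → Pool.Agent.Y321.PJ.perJac E f k p ≤ 1)) :
    ∀ U : Set M, IsOpen U → U.Nonempty → ∃ m : ℕ, 1 ≤ m ∧ (f^[m] '' U ∩ U).Nonempty := by
  rcases hJ with h | h
  · exact h
  have htr : TopTransitive f := by
    by_contra hnt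
    obtain ⟨n, P, Q, hn, -, -, hP, hQ, hd⟩ :=
      Pool.Agent.Y321.PJ.main f hf2 hf2' Es Eu hA hnt
    obtain ⟨x, ⟨p, hp, -⟩, ⟨q, hq, -⟩⟩ := hd.nonempty
    rcases h with h | h
    · exact absurd (h n p hn (hP p hp).1) (not_le.mpr (hP p hp).2)
    · exact absurd (h n q hn (hQ q hq).1) (not_le.mpr (hQ q hq).2)
  intro U hU hUn
  have hfU : IsOpen (f '' U) := f.toHomeomorph.isOpenMap U hU
  obtain ⟨n, _, ⟨_, ⟨x, hx, rfl⟩, rfl⟩, hy⟩ := htr (f '' U) U hfU (hUn.image f) hU hUn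
  exact ⟨n + 1, by omega, f^[n] (f x), ⟨x, hx, by rw [Function.iterate_succ_apply]⟩, hy⟩

end Pool.Agent.Y321.PD
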