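import Pool.Agent.Y321.PD.Main
import Pool.Agent.H779R2.An.Periodic

set_option autoImplicit false
set_option linter.unusedSectionVars false

open scoped Manifold ContDiff Topology Bundle
open Set Filter Bundle

namespace Pool.Agent.Y321.PD

open Pool.Agent.H721R2 Pool.Agent.H789R2.AN Pool.Agent.H789R2.GP Pool.Agent.H779R2.An
  Pool.Agent.H779R2.To Pool.Agent.H779R2.Nu Pool.Agent.H147R2.RI Pool.Agent.H576R3.CF

/-- The periodic points of a nonwandering Anosov diffeomorphism are dense, and it is transitive. -/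
theorem dense_per (E : Type*) [NormedAddCommGroup E] [NormedSpace ℝ E] [FiniteDimensional ℝ E]
    (M : Type*) [TopologicalSpace M] [T2Space M] [CompactSpace M] [ConnectedSpace M]
    [ChartedSpace E M] [IsManifold 𝓘(ℝ, E) ∞ M] (f : Diffeomorph 𝓘(ℝ, E) 𝓘(ℝ, E) M M 1)
    (Es Eu : ∀ x : M, Submodule ℝ (TangentSpace 𝓘(ℝ, E) x)) (hA : IsAnosov f Es Eu)
    (hnw : ∀ U : Set M, IsOpen U → U.Nonempty → ∃ m : ℕ, 1 ≤ m ∧ (f^[m] '' U ∩ U).Nonempty) :
    Dense (Function.periodicPts f) := by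
  obtain ⟨m, e, he, hemb, hinj⟩ := exists_embedding_euclidean_of_compact (I := 𝓘(ℝ, E)) (M := M)
  let _ : MetricSpace M := hemb.isEmbedding.comapMetricSpace e
  have hiso : ∀ x y : M, dist x y = ‖e x - e y‖ := fun x y => dist_eq_norm (e x) (e y)
  have he1 : ContMDiff 𝓘(ℝ, E) (𝓡 m) 1 e := he.of_le (by simp)
  obtain ⟨C', a, b, Ls, Lu, hE⟩ := eanosov_of_isAnosov e he1 hinj f Es Eu hA
  obtain ⟨K, hK, hang⟩ := hE.angle he1 hinj
  have t1 : Tendsto (fun n : ℕ => K * (C' * a ^ n)) atTop (𝓝 0) := by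
    have := ((tendsto_pow_atTop_nhds_zero_of_lt_one hE.a_pos.le hE.a_lt).const_mul C').const_mul K
    simpa using this
  have t2 : Tendsto (fun n : ℕ => K * (C' * b ^ n)) atTop (𝓝 0) := by
    have := ((tendsto_pow_atTop_nhds_zero_of_lt_one hE.b_pos.le hE.b_lt).const_mul C').const_mul K
    simpa using this
  obtain ⟨n, ⟨hn1, hn2⟩, hn3⟩ := ((((tendsto_order.mp t1).2 (1 / 16) (by norm_num)).and
    ((tendsto_order.mp t2).2 (1 / 16) (by norm_num))).and (eventually_ge_atTop 1)).exists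
  obtain ⟨S, hS⟩ := exists_realizes hiso he1 hinj hE K hK hang n hn1.le hn2.le
  have hgk : ∀ (k : ℕ) (x : M), (S.g^[k]) x = f^[n * k] x := by
    intro k x
    rw [hS.g_eq, Function.iterate_mul]
    rfl
  have hne : Nonempty M := inferInstance
  have htr : ∀ U V : Set M, IsOpen U → U.Nonempty → IsOpen V → V.Nonempty →
      ∃ k : ℕ, (S.g^[k] '' U ∩ V).Nonempty := by
    intro U V hU hUn hV hVn
    refine trans_of_nw S (fun O hO hOn => ?_) U V hU hUn hV hVn
    obtain ⟨k, hk, hk'⟩ := nw_pow f f.continuous hnw n hn3 O hO hOn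
    refine ⟨k, hk, ?_⟩
    have e1 : (S.g^[k]) = (f^[n * k]) := funext (hgk k)
    rwa [e1]
  intro x
  rw [Metric.mem_closure_iff]
  intro ε hε
  obtain ⟨y, N, hN1, hy, hd⟩ := periodic_dense S htr x ε hε
  refine ⟨y, ⟨n * N, Nat.mul_pos hn3 hN1, ?_⟩, by rwa [dist_comm]⟩
  rw [Function.IsPeriodicPt, Function.IsFixedPt, ← hgk]
  exact hy

end Pool.Agent.Y321.PD
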